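import Mathlib

/-!
# Frobenius splittings of pairs, `F`-pure thresholds and the Frobenius alpha-invariant

All rings are domains `S` and everything takes place inside the field of fractions
`FractionRing S`.  Divisors are functions on ideals; only their values at prime ideals of height one
matter.  The definitions are meant for Noetherian normal domains, where `S_P` is a discrete
valuation ring for every prime `P` of height one.
-/

set_option autoImplicit false

open scoped ENNReal NNReal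
open TopologicalSpace

namespace Pool.Agent.H574R3.Alpha

universe u v

section Local

variable {S : Type u} [CommRing S] [IsDomain S]

/-- `v_P(f)`: the order of vanishing of `f ≠ 0` along the prime `P` of height one, i.e. the largest
`n` with `f ∈ P ^ n S_P`. -/
noncomputable def ordAt (P : Ideal S) (f : S) : ℕ :=
  sSup {n : ℕ | ∃ s, s ∉ P ∧ s * f ∈ P ^ n}

/-- `v_P(h) ≥ -n` for an element `h` of the fraction field: `P ^ n h ⊆ S_P`. -/
def PoleLE (P : Ideal S) (n : ℕ) (h : FractionRing S) : Prop :=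
  ∀ b ∈ P ^ n, ∃ s, s ∉ P ∧ ∃ r : S,
    algebraMap S (FractionRing S) s * (algebraMap S (FractionRing S) b * h) =
      algebraMap S (FractionRing S) r

/-- The localization `S_𝔪`, as a subset of the fraction field. -/
def localRing (𝔪 : Ideal S) : Set (FractionRing S) :=
  {h | ∃ a s : S, s ∉ 𝔪 ∧ h = algebraMap S (FractionRing S) a / algebraMap S (FractionRing S) s}

/-- `S_𝔪(D)` for an effective Weil divisor `D`: the elements `h` of the fraction field with
`v_P(h) ≥ - D P` for all primes `P ⊆ 𝔪` of height one. -/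
def localDiv (𝔪 : Ideal S) (D : Ideal S → ℕ) : Set (FractionRing S) :=
  {h | ∀ P : Ideal S, P.IsPrime → P.height = 1 → P ≤ 𝔪 → PoleLE P (D P) h}

/-- The pair `(S_𝔪, Γ)`, `Γ` an effective `ℝ`-divisor, is sharply `F`-split: for some `e > 0` the
inclusion `S_𝔪 → F^e_* S_𝔪(⌈(p ^ e - 1) Γ⌉)` splits, i.e. there is an additive map
`φ : S_𝔪(⌈(p ^ e - 1) Γ⌉) → S_𝔪` with `φ (r ^ (p ^ e) h) = r φ(h)` for `r ∈ S_𝔪` and `φ 1 = 1`. -/
def SharplyFSplit (p : ℕ) (𝔪 : Ideal S) (Γ : Ideal S → ℝ) : Prop :=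
  ∃ e : ℕ, 0 < e ∧ ∃ φ : FractionRing S → FractionRing S,
    (∀ h ∈ localDiv 𝔪 (fun P => ⌈((p : ℝ) ^ e - 1) * Γ P⌉₊), φ h ∈ localRing 𝔪) ∧
    (∀ h ∈ localDiv 𝔪 (fun P => ⌈((p : ℝ) ^ e - 1) * Γ P⌉₊),
      ∀ h' ∈ localDiv 𝔪 (fun P => ⌈((p : ℝ) ^ e - 1) * Γ P⌉₊), φ (h + h') = φ h + φ h') ∧
    (∀ r ∈ localRing 𝔪, ∀ h ∈ localDiv 𝔪 (fun P => ⌈((p : ℝ) ^ e - 1) * Γ P⌉₊),
      φ (r ^ (p ^ e) * h) = r * φ h) ∧
    φ 1 = 1

end Local

section Graded

variable {k : Type v} {S : Type u} [Field k] [CommRing S] [IsDomain S] [Algebra k S]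
variable (𝒜 : ℕ → Submodule k S) [GradedAlgebra 𝒜]

/-- The `F`-pure threshold `fpt(S, Δ~; f)`: the supremum of the `lam ≥ 0` for which
`(S_𝔪, Δ~ + lam div(f))` is sharply `F`-split, `𝔪` being the homogeneous maximal ideal. -/
noncomputable def fpt (p : ℕ) (Δ : Ideal S → ℚ) (f : S) : ℝ≥0∞ :=
  ⨆ (lam : ℝ≥0) (_ : SharplyFSplit p (HomogeneousIdeal.irrelevant 𝒜).toIdeal
    (fun P => (Δ P : ℝ) + lam * ordAt P f)), (lam : ℝ≥0∞)

/-- The Frobenius alpha-invariant: the infimum of `fpt(S, Δ~; f) * deg f` over all nonzero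
homogeneous `f` of positive degree. -/
noncomputable def alphaF (p : ℕ) (Δ : Ideal S → ℚ) : ℝ≥0∞ :=
  ⨅ (d : ℕ) (f : S) (_ : 0 < d ∧ f ∈ 𝒜 d ∧ f ≠ 0), fpt 𝒜 p Δ f * d

/-- `S = ⨁ 𝒜 m` is the section ring `⨁ H⁰(X, 𝒪_X(mL))` of an ample Cartier divisor `L` on the normal
projective variety `X = Proj S` over `k`, with `𝒪_X(L) = 𝒪_X(1)`. -/
structure IsSectionRing : Prop where
  /-- `S` is normal, hence so is `X` -/
  normal : IsIntegrallyClosed S
  /-- `S` is finitely generated -/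
  finiteType : Algebra.FiniteType k S
  /-- `X` is projective over `k` -/
  finite_zero : Module.Finite k (𝒜 0)
  /-- `X` is not empty -/
  nonempty : Nonempty (ProjectiveSpectrum 𝒜)
  /-- `𝒪_X(1)` is invertible: near each point of `X` there is a unit of degree one -/
  invertible : ∀ x : ProjectiveSpectrum 𝒜, ∃ m : ℕ,
    (∃ a ∈ 𝒜 m, a ∉ x.asHomogeneousIdeal) ∧ ∃ b ∈ 𝒜 (m + 1), b ∉ x.asHomogeneousIdeal
  /-- the global sections of `𝒪_X(m)` are the elements of `𝒜 m` -/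
  sections : ∀ (m : ℕ) (h : FractionRing S),
    (∀ x : ProjectiveSpectrum 𝒜, ∃ (i : ℕ) (a b : S), a ∈ 𝒜 (m + i) ∧ b ∈ 𝒜 i ∧
      b ∉ x.asHomogeneousIdeal ∧
      h = algebraMap S (FractionRing S) a / algebraMap S (FractionRing S) b) →
    ∃ a ∈ 𝒜 m, h = algebraMap S (FractionRing S) a

/-- `Δ` is an effective `ℚ`-divisor on `X = Proj S`: its components are prime divisors of `X`, i.e.
homogeneous prime ideals of height one which do not contain the irrelevant ideal.  As a function on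
the prime ideals of height one of `S`, it is then the cone over `Δ`. -/
def IsEffectiveDivisor (Δ : Ideal S →₀ ℚ) : Prop :=
  ∀ P, 0 ≤ Δ P ∧ (Δ P ≠ 0 → P.IsPrime ∧ P.IsHomogeneous 𝒜 ∧ P.height = 1 ∧
    ¬ (HomogeneousIdeal.irrelevant 𝒜).toIdeal ≤ P)

/-- The local ring of `X = Proj S` at the point `x`, as a subset of the fraction field of `S`. -/
def projStalk (x : ProjectiveSpectrum 𝒜) : Set (FractionRing S) :=
  {h | ∃ (i : ℕ) (a b : S), a ∈ 𝒜 i ∧ b ∈ 𝒜 i ∧ b ∉ x.asHomogeneousIdeal ∧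
    h = algebraMap S (FractionRing S) a / algebraMap S (FractionRing S) b}

/-- The function field of `X = Proj S`, as a subset of the fraction field of `S`. -/
def projField : Set (FractionRing S) :=
  {h | ∃ (i : ℕ) (a b : S), a ∈ 𝒜 i ∧ b ∈ 𝒜 i ∧ b ≠ 0 ∧
    h = algebraMap S (FractionRing S) a / algebraMap S (FractionRing S) b}

/-- The sections of the structure sheaf of `X = Proj S` over a nonempty open subset. -/
def projO (U : Opens (ProjectiveSpectrum 𝒜)) : Set (FractionRing S) :=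
  {h | ∀ x ∈ U, h ∈ projStalk 𝒜 x}

/-- The sections of `𝒪_X(D)` over a nonempty open subset of `X = Proj S`, for an effective Weil
divisor `D`: the rational functions `h` with `v_P(h) ≥ - D P` for all prime divisors `P` of `X`
(homogeneous primes of height one) which are in `U`. -/
def projODiv (D : Ideal S → ℕ) (U : Opens (ProjectiveSpectrum 𝒜)) : Set (FractionRing S) :=
  {h | h ∈ projField 𝒜 ∧ ∀ x ∈ U, x.asHomogeneousIdeal.toIdeal.height = 1 →
    PoleLE x.asHomogeneousIdeal.toIdeal (D x.asHomogeneousIdeal.toIdeal) h}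

/-- The inclusion `𝒪_X → F^e_* 𝒪_X(D)`, `X = Proj S`, splits as a map of sheaves of
`𝒪_X`-modules, `q = p ^ e`. -/
def ProjSplits (q : ℕ) (D : Ideal S → ℕ) : Prop :=
  ∃ φ : Opens (ProjectiveSpectrum 𝒜) → FractionRing S → FractionRing S,
    ∀ U : Opens (ProjectiveSpectrum 𝒜), (U : Set (ProjectiveSpectrum 𝒜)).Nonempty →
      (∀ h ∈ projODiv 𝒜 D U, φ U h ∈ projO 𝒜 U) ∧
      (∀ h ∈ projODiv 𝒜 D U, ∀ h' ∈ projODiv 𝒜 D U, φ U (h + h') = φ U h + φ U h') ∧
      (∀ r ∈ projO 𝒜 U, ∀ h ∈ projODiv 𝒜 D U, φ U (r ^ q * h) = r * φ U h) ∧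
      (∀ V : Opens (ProjectiveSpectrum 𝒜), (V : Set (ProjectiveSpectrum 𝒜)).Nonempty → V ≤ U →
        ∀ h ∈ projODiv 𝒜 D U, φ V h = φ U h) ∧
      φ U 1 = 1

/-- `(X, Δ)`, `X = Proj S`, is globally `F`-regular: for every effective Weil divisor `D` on `X`
there is `e > 0` such that `𝒪_X → F^e_* 𝒪_X(⌈(p ^ e - 1) Δ⌉ + D)` splits. -/
def IsGloballyFRegular (p : ℕ) (Δ : Ideal S → ℚ) : Prop :=
  ∀ D : Ideal S →₀ ℕ, ∃ e : ℕ, 0 < e ∧
    ProjSplits 𝒜 (p ^ e) (fun P => ⌈((p : ℚ) ^ e - 1) * Δ P⌉₊ + D P)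

end Graded

end Pool.Agent.H574R3.Alpha
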