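import Mathlib

set_option autoImplicit false

namespace Pool.Agent.H574R3.Alpha

open MvPolynomial

universe u

variable {k : Type u} [Field k]

/-- exponent vector `(i, j)` -/
noncomputable def ex (i j : ℕ) : Fin 2 →₀ ℕ := Finsupp.single 0 i + Finsupp.single 1 j

@[simp] theorem ex_zero (i j : ℕ) : ex i j 0 = i := by simp [ex]
@[simp] theorem ex_one (i j : ℕ) : ex i j 1 = j := by simp [ex]

theorem ex_eta (d : Fin 2 →₀ ℕ) : d = ex (d 0) (d 1) := by
  ext i; fin_cases i <;> simp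

theorem ex_inj {i j i' j' : ℕ} : ex i j = ex i' j' ↔ i = i' ∧ j = j' := by
  constructor
  · intro h
    exact ⟨by simpa using DFunLike.congr_fun h 0, by simpa using DFunLike.congr_fun h 1⟩
  · rintro ⟨rfl, rfl⟩; rfl

theorem ex_le {i j i' j' : ℕ} : ex i j ≤ ex i' j' ↔ i ≤ i' ∧ j ≤ j' := by
  rw [Finsupp.le_def]
  constructor
  · intro h; exact ⟨by simpa using h 0, by simpa using h 1⟩
  · rintro ⟨h1, h2⟩ i; fin_cases i <;> simpa

theorem ex_sub {i j i' j' : ℕ} : ex i j - ex i' j' = ex (i - i') (j - j') := by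
  ext i; fin_cases i <;> simp

theorem ex_add {i j i' j' : ℕ} : ex i j + ex i' j' = ex (i + i') (j + j') := by
  ext i; fin_cases i <;> simp

theorem X_pow_mul_X_pow (a b : ℕ) : (X 0 ^ a * X 1 ^ b : MvPolynomial (Fin 2) k) = monomial (ex a b) 1 := by
  rw [X_pow_eq_monomial, X_pow_eq_monomial, monomial_mul, ex, one_mul]

theorem coeff_mul_mono (F : MvPolynomial (Fin 2) k) (a b i j : ℕ) :
    coeff (ex i j) (F * (X 0 ^ a * X 1 ^ b)) = if a ≤ i ∧ b ≤ j then coeff (ex (i - a) (j - b)) F else 0 := by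
  rw [X_pow_mul_X_pow, coeff_mul_monomial']
  simp [ex_le, ex_sub]

theorem degree_ex (i j : ℕ) : (ex i j).degree = i + j := by
  rw [Finsupp.degree_eq_sum]; simp [Fin.sum_univ_two]

/-- the substitution `x ↦ (u² - v²)²`, `y ↦ 4 u² v²` -/
noncomputable def hat : MvPolynomial (Fin 2) k →ₐ[k] MvPolynomial (Fin 2) k :=
  aeval ![(X 0 ^ 2 - X 1 ^ 2) ^ 2, 4 * X 0 ^ 2 * X 1 ^ 2]

@[simp] theorem hat_X0 : hat (X 0 : MvPolynomial (Fin 2) k) = (X 0 ^ 2 - X 1 ^ 2) ^ 2 := by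
  simp [hat]
@[simp] theorem hat_X1 : hat (X 1 : MvPolynomial (Fin 2) k) = 4 * X 0 ^ 2 * X 1 ^ 2 := by
  simp [hat]

/-- the equation `x y (x + y)` of the three points -/
noncomputable def J3 : MvPolynomial (Fin 2) k := X 0 * X 1 * (X 0 + X 1)

theorem P1 (p e : ℕ) [Fact p.Prime] [CharP k p] (hp : p ≠ 2) (F a b : MvPolynomial (Fin 2) k)
    (hF : F * J3 ^ ((p ^ e - 1) / 2) = a * X 0 ^ (p ^ e) + b * X 1 ^ (p ^ e))
    (i j : ℕ) (hi : i < p ^ e) (hj : j < p ^ e) : coeff (ex i j) (hat F) = 0 := by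
  set q := p ^ e with hq
  have hq0 : 0 < q := by rw [hq]; exact pow_pos (Fact.out : p.Prime).pos e
  have hodd : Odd q := by rw [hq]; exact ((Fact.out : p.Prime).odd_of_ne_two hp).pow
  have h2 : (2 : k) ≠ 0 := by
    have := (CharP.cast_eq_zero_iff k p 2)
    intro h
    have h' : ((2 : ℕ) : k) = 0 := by exact_mod_cast h
    have h'' := (this.1 h')
    have := (Nat.prime_dvd_prime_iff_eq (Fact.out : p.Prime) Nat.prime_two).1 h''
    exact hp this
  set u : MvPolynomial (Fin 2) k := X 0 with hu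
  set v : MvPolynomial (Fin 2) k := X 1 with hv
  have h1 := congrArg hat hF
  simp only [J3, map_mul, map_add, map_pow, hat_X0, hat_X1] at h1
  rw [← hu, ← hv] at h1
  have h3 : ((u ^ 2 - v ^ 2) ^ 2 * (4 * u ^ 2 * v ^ 2) * ((u ^ 2 - v ^ 2) ^ 2 + 4 * u ^ 2 * v ^ 2))
      = (2 * (u ^ 5 * v - u * v ^ 5)) ^ 2 := by ring
  rw [hu, hv, hat_X0, hat_X1, ← hu, ← hv, h3, ← pow_mul] at h1
  have h4 : 2 * ((q - 1) / 2) = q - 1 := by
    obtain ⟨m, hm⟩ := hodd
    omega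
  rw [h4] at h1
  have h5 : hat F * (2 * (u ^ 5 * v - u * v ^ 5)) ^ q =
      (hat a * (2 * (u ^ 5 * v - u * v ^ 5))) * (u ^ 4 - 2 * (u ^ 2 * v ^ 2) + v ^ 4) ^ q +
      (hat b * (2 * (u ^ 5 * v - u * v ^ 5))) * (4 * u ^ 2 * v ^ 2) ^ q := by
    have h6 : (2 * (u ^ 5 * v - u * v ^ 5)) ^ q = (2 * (u ^ 5 * v - u * v ^ 5)) ^ (q - 1) *
        (2 * (u ^ 5 * v - u * v ^ 5)) := by
      rw [← pow_succ]; congr 1; omega
    rw [h6, ← mul_assoc, h1, add_mul, ← pow_mul]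
    have h7 : ((u ^ 2 - v ^ 2) ^ 2) = (u ^ 4 - 2 * (u ^ 2 * v ^ 2) + v ^ 4) := by ring
    rw [pow_mul, h7]; ring
  have e1 : (2 * (u ^ 5 * v - u * v ^ 5)) ^ q = C (2 ^ q) * (u ^ (5 * q) * v ^ q) -
      C (2 ^ q) * (u ^ q * v ^ (5 * q)) := by
    rw [mul_pow, hq, sub_pow_char_pow, ← hq, mul_pow, mul_pow, ← pow_mul, ← pow_mul]
    simp only [map_pow, map_ofNat]; ring
  have e2 : (u ^ 4 - 2 * (u ^ 2 * v ^ 2) + v ^ 4) ^ q = u ^ (4 * q) * v ^ 0 -
      C (2 ^ q) * (u ^ (2 * q) * v ^ (2 * q)) + u ^ 0 * v ^ (4 * q) := by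
    rw [hq, add_pow_char_pow, sub_pow_char_pow, ← hq, mul_pow, mul_pow, ← pow_mul, ← pow_mul,
      ← pow_mul, ← pow_mul]
    simp only [map_pow, map_ofNat]; ring
  have e3 : (4 * u ^ 2 * v ^ 2) ^ q = C (4 ^ q) * (u ^ (2 * q) * v ^ (2 * q)) := by
    rw [mul_pow, mul_pow, ← pow_mul, ← pow_mul]
    simp only [map_pow, map_ofNat]; ring
  rw [e1, e2, e3] at h5
  set a' := (hat a * (2 * (u ^ 5 * v - u * v ^ 5))) with ha'
  set b' := (hat b * (2 * (u ^ 5 * v - u * v ^ 5))) with hb'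
  have c1 := congrArg (coeff (ex (5 * q + i) (q + j))) h5
  have c2 := congrArg (coeff (ex (q + i) (5 * q + j))) h5
  simp only [mul_sub, mul_add, coeff_sub, coeff_add, mul_left_comm _ (C _), coeff_C_mul,
    hu, hv, coeff_mul_mono] at c1 c2
  have n1 : ¬ (5 * q ≤ q + j) := by omega
  have n2 : ¬ (5 * q ≤ q + i) := by omega
  have n3 : ¬ (4 * q ≤ q + j) := by omega
  have n4 : ¬ (4 * q ≤ q + i) := by omega
  have n5 : ¬ (2 * q ≤ q + j) := by omega
  have n6 : ¬ (2 * q ≤ q + i) := by omega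
  have s1 : 5 * q + i - 5 * q = i := by omega
  have s2 : q + j - q = j := by omega
  have s3 : q + i - q = i := by omega
  have s4 : 5 * q + j - 5 * q = j := by omega
  have s5 : 5 * q + i - 4 * q = q + i := by omega
  have s6 : 5 * q + j - 4 * q = q + j := by omega
  have t1 : 5 * q ≤ 5 * q + i := by omega
  have t2 : q ≤ q + j := by omega
  have t3 : q ≤ q + i := by omega
  have t4 : 5 * q ≤ 5 * q + j := by omega
  have t5 : 4 * q ≤ 5 * q + i := by omega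
  have t6 : 4 * q ≤ 5 * q + j := by omega
  simp only [n1, n2, n3, n4, n5, n6, s1, s2, s3, s4, s5, s6, t1, t2, t3, t4, t5, t6, and_false,
    false_and, and_self, if_true, if_false, and_true, true_and, zero_le, mul_zero, sub_zero,
    zero_sub, add_zero, zero_add, Nat.sub_zero] at c1 c2
  have h8 : (2 : k) ^ q * (2 * coeff (ex i j) (hat F)) = 0 := by
    linear_combination c1 - c2
  have h9 : (2 : k) ^ q ≠ 0 := pow_ne_zero _ h2
  rcases mul_eq_zero.1 h8 with h | h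
  · exact absurd h h9
  · rcases mul_eq_zero.1 h with h | h
    · exact absurd h h2
    · exact h

end Pool.Agent.H574R3.Alpha
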