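import Mathlib
import Pool.Agent.H574R3.Alpha.Poly

set_option autoImplicit false

namespace Pool.Agent.H574R3.Alpha

open MvPolynomial

universe u

variable {k : Type u} [Field k]

theorem hom_sum {h : MvPolynomial (Fin 2) k} {N : ℕ} (hh : h.IsHomogeneous N) :
    h = ∑ i ∈ Finset.range (N + 1), C (coeff (ex i (N - i)) h) * (X 0 ^ i * X 1 ^ (N - i)) := by
  ext d
  rw [ex_eta d, coeff_sum]
  simp only [coeff_C_mul, X_pow_mul_X_pow, coeff_monomial, ex_inj]
  by_cases hd : d 0 + d 1 = N
  · rw [Finset.sum_eq_single (d 0)]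
    · have : N - d 0 = d 1 := by omega
      simp [this]
    · intro b _ hb
      simp [hb]
    · intro hn
      exact absurd (Finset.mem_range.2 (by omega)) hn
  · have h0 : coeff (ex (d 0) (d 1)) h = 0 := by
      apply hh.coeff_eq_zero
      rw [degree_ex]; exact hd
    rw [h0, Finset.sum_eq_zero]
    intro i hi
    rw [Finset.mem_range] at hi
    rw [if_neg, mul_zero]
    rintro ⟨h1, h2⟩
    omega

/-- decomposition of forms of degree `q + j`, `j < q`, lying in `(u ^ q, v ^ q)` -/
theorem decomp {g : MvPolynomial (Fin 2) k} {q j : ℕ} (hg : g.IsHomogeneous (q + j)) (hj : j < q)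
    (h0 : ∀ a b, a < q → b < q → coeff (ex a b) g = 0) :
    ∃ α β : MvPolynomial (Fin 2) k, α.totalDegree ≤ j ∧ β.totalDegree ≤ j ∧
      g = α * X 0 ^ q + β * X 1 ^ q := by
  refine ⟨∑ i ∈ Finset.range (j + 1), C (coeff (ex (q + i) (j - i)) g) * (X 0 ^ i * X 1 ^ (j - i)),
    ∑ i ∈ Finset.range (j + 1), C (coeff (ex i (q + j - i)) g) * (X 0 ^ i * X 1 ^ (j - i)), ?_, ?_, ?_⟩
  · apply IsHomogeneous.totalDegree_le
    apply IsHomogeneous.sum
    intro i hi
    rw [Finset.mem_range] at hi
    rw [X_pow_mul_X_pow]
    apply IsHomogeneous.C_mul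
    apply isHomogeneous_monomial
    rw [degree_ex]; omega
  · apply IsHomogeneous.totalDegree_le
    apply IsHomogeneous.sum
    intro i hi
    rw [Finset.mem_range] at hi
    rw [X_pow_mul_X_pow]
    apply IsHomogeneous.C_mul
    apply isHomogeneous_monomial
    rw [degree_ex]; omega
  · conv_lhs => rw [hom_sum hg]
    have hspl : Finset.range (q + j + 1) = (Finset.range (j + 1)) ∪ ((Finset.Ico (j + 1) q) ∪ (Finset.Ico q (q + j + 1))) := by
      ext x
      simp only [Finset.mem_range, Finset.mem_union, Finset.mem_Ico]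
      omega
    rw [hspl, Finset.sum_union, Finset.sum_union]
    · rw [Finset.sum_eq_zero (s := Finset.Ico (j + 1) q), zero_add, add_comm]
      · congr 1
        · rw [Finset.sum_mul, Finset.sum_Ico_eq_sum_range]
          have : q + j + 1 - q = j + 1 := by omega
          rw [this]
          apply Finset.sum_congr rfl
          intro i hi
          rw [Finset.mem_range] at hi
          have h1 : q + j - (q + i) = j - i := by omega
          rw [h1, pow_add]; ring
        · rw [Finset.sum_mul]
          apply Finset.sum_congr rfl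
          intro i hi
          rw [Finset.mem_range] at hi
          have h1 : q + j - i = (j - i) + q := by omega
          rw [h1, pow_add]; ring
      · intro i hi
        rw [Finset.mem_Ico] at hi
        rw [h0 i _ (by omega) (by omega)]; simp
    · rw [Finset.disjoint_left]
      intro x hx hx'
      rw [Finset.mem_Ico] at hx hx'
      omega
    · rw [Finset.disjoint_left]
      intro x hx hx'
      rw [Finset.mem_range] at hx
      rw [Finset.mem_union, Finset.mem_Ico, Finset.mem_Ico] at hx'
      omega

/-- evaluation at a point of the plane over an extension field -/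
noncomputable def ev {L : Type u} [Field L] [Algebra k L] (a b : L) : MvPolynomial (Fin 2) k →ₐ[k] L :=
  aeval ![a, b]

@[simp] theorem ev_X0 {L : Type u} [Field L] [Algebra k L] (a b : L) : ev (k := k) a b (X 0) = a := by
  simp [ev]
@[simp] theorem ev_X1 {L : Type u} [Field L] [Algebra k L] (a b : L) : ev (k := k) a b (X 1) = b := by
  simp [ev]

theorem ev_hat {L : Type u} [Field L] [Algebra k L] (a b : L) (f : MvPolynomial (Fin 2) k) :
    ev a b (hat f) = ev ((a ^ 2 - b ^ 2) ^ 2) (4 * a ^ 2 * b ^ 2) f := by
  have : (ev (k := k) a b).comp hat = ev ((a ^ 2 - b ^ 2) ^ 2) (4 * a ^ 2 * b ^ 2) := by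
    apply MvPolynomial.algHom_ext
    intro i
    fin_cases i
    · simp
    · have h4 : ev (k := k) a b 4 = 4 := map_ofNat _ 4
      simp [h4]
  exact DFunLike.congr_fun this f

/-- evaluation on a line -/
noncomputable def ln {L : Type u} [Field L] [Algebra k L] (a b c d : L) :
    MvPolynomial (Fin 2) k →ₐ[k] Polynomial L :=
  aeval ![Polynomial.C a + Polynomial.C c * Polynomial.X, Polynomial.C b + Polynomial.C d * Polynomial.X]

@[simp] theorem ln_X0 {L : Type u} [Field L] [Algebra k L] (a b c d : L) : ln (k := k) a b c d (X 0) =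
    Polynomial.C a + Polynomial.C c * Polynomial.X := by
  simp [ln]
@[simp] theorem ln_X1 {L : Type u} [Field L] [Algebra k L] (a b c d : L) : ln (k := k) a b c d (X 1) =
    Polynomial.C b + Polynomial.C d * Polynomial.X := by
  simp [ln]

theorem eval_ln {L : Type u} [Field L] [Algebra k L] (a b c d t : L) (f : MvPolynomial (Fin 2) k) :
    (ln a b c d f).eval t = ev (a + c * t) (b + d * t) f := by
  have : ((Polynomial.aeval t).restrictScalars k).comp (ln (k := k) a b c d) = ev (a + c * t) (b + d * t) := by
    apply MvPolynomial.algHom_ext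
    intro i
    fin_cases i <;> simp
  have h := DFunLike.congr_fun this f
  rw [← h]
  simp

theorem natDegree_ln {L : Type u} [Field L] [Algebra k L] (a b c d : L) (f : MvPolynomial (Fin 2) k) :
    (ln a b c d f).natDegree ≤ f.totalDegree := by
  rw [ln, MvPolynomial.aeval_def, MvPolynomial.eval₂_eq']
  apply Polynomial.natDegree_sum_le_of_forall_le
  intro m hm
  have h1 : (∏ i, (![Polynomial.C a + Polynomial.C c * Polynomial.X, Polynomial.C b + Polynomial.C d * Polynomial.X] : Fin 2 → Polynomial L) i ^ m i).natDegree ≤ m 0 + m 1 := by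
    rw [Fin.prod_univ_two]
    simp only [Matrix.cons_val_zero, Matrix.cons_val_one]
    refine (Polynomial.natDegree_mul_le).trans ?_
    apply add_le_add
    · refine (Polynomial.natDegree_pow_le).trans ?_
      have : (Polynomial.C a + Polynomial.C c * Polynomial.X).natDegree ≤ 1 := by
        compute_degree
      nlinarith
    · refine (Polynomial.natDegree_pow_le).trans ?_
      have : (Polynomial.C b + Polynomial.C d * Polynomial.X).natDegree ≤ 1 := by
        compute_degree
      nlinarith
  have h2 : ((algebraMap k (Polynomial L)) (coeff m f)).natDegree = 0 := by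
    rw [IsScalarTower.algebraMap_apply k L (Polynomial L)]
    exact Polynomial.natDegree_C _
  have h3 : m 0 + m 1 ≤ f.totalDegree := by
    have := MvPolynomial.le_totalDegree hm
    rw [Finsupp.sum_fintype _ _ (by simp)] at this
    simpa [Fin.sum_univ_two] using this
  refine (Polynomial.natDegree_mul_le).trans ?_
  refine (add_le_add h2.le h1).trans ?_
  omega

/-- key step: a root of `h` gives a linear relation between `α` and `β`. -/
theorem key_rel {L : Type u} [Field L] [Algebra k L] {p : ℕ} [Fact p.Prime] [CharP L p] {e n j : ℕ}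
    {h α β : MvPolynomial (Fin 2) k}
    (hα : α.totalDegree ≤ j) (hβ : β.totalDegree ≤ j) (hjn : j < n) (hnq : n ≤ p ^ e)
    (hg : h ^ n = α * X 0 ^ (p ^ e) + β * X 1 ^ (p ^ e))
    (a b : L) (hab : ev a b h = 0) (c d : L) :
    a ^ (p ^ e) * ev c d α + b ^ (p ^ e) * ev c d β = 0 := by
  set q := p ^ e with hq
  have h1 := congrArg (ln a b (c - a) (d - b)) hg
  rw [map_pow, map_add, map_mul, map_mul, map_pow, map_pow, ln_X0, ln_X1] at h1
  have e1 : (Polynomial.C a + Polynomial.C (c - a) * Polynomial.X) ^ q =
      Polynomial.C (a ^ q) + Polynomial.C ((c - a) ^ q) * Polynomial.X ^ q := by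
    rw [hq, add_pow_char_pow, mul_pow, ← hq]; simp
  have e2 : (Polynomial.C b + Polynomial.C (d - b) * Polynomial.X) ^ q =
      Polynomial.C (b ^ q) + Polynomial.C ((d - b) ^ q) * Polynomial.X ^ q := by
    rw [hq, add_pow_char_pow, mul_pow, ← hq]; simp
  rw [e1, e2] at h1
  have h2 : (Polynomial.X : Polynomial L) ∣ ln a b (c - a) (d - b) h := by
    rw [Polynomial.X_dvd_iff, Polynomial.coeff_zero_eq_eval_zero, eval_ln]
    simpa using hab
  have h3 : (Polynomial.X : Polynomial L) ^ n ∣
      Polynomial.C (a ^ q) * ln a b (c - a) (d - b) α + Polynomial.C (b ^ q) * ln a b (c - a) (d - b) β := by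
    have h4 : (Polynomial.X : Polynomial L) ^ n ∣ ln a b (c - a) (d - b) h ^ n := pow_dvd_pow_of_dvd h2 n
    have h5 : (Polynomial.X : Polynomial L) ^ n ∣ Polynomial.X ^ q := pow_dvd_pow _ hnq
    rw [h1] at h4
    have h6 : Polynomial.C (a ^ q) * ln a b (c - a) (d - b) α + Polynomial.C (b ^ q) * ln a b (c - a) (d - b) β =
      (ln a b (c - a) (d - b) α * (Polynomial.C (a ^ q) + Polynomial.C ((c - a) ^ q) * Polynomial.X ^ q) +
      ln a b (c - a) (d - b) β * (Polynomial.C (b ^ q) + Polynomial.C ((d - b) ^ q) * Polynomial.X ^ q)) -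
      (ln a b (c - a) (d - b) α * Polynomial.C ((c - a) ^ q) + ln a b (c - a) (d - b) β * Polynomial.C ((d - b) ^ q)) *
        Polynomial.X ^ q := by ring
    rw [h6]
    exact dvd_sub h4 (Dvd.dvd.mul_left h5 _)
  have h7 : Polynomial.C (a ^ q) * ln a b (c - a) (d - b) α + Polynomial.C (b ^ q) * ln a b (c - a) (d - b) β = 0 := by
    by_contra hne
    have h8 := Polynomial.natDegree_le_of_dvd h3 hne
    rw [Polynomial.natDegree_X_pow] at h8
    have h9 : (Polynomial.C (a ^ q) * ln a b (c - a) (d - b) α + Polynomial.C (b ^ q) * ln a b (c - a) (d - b) β).natDegree ≤ j := by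
      refine (Polynomial.natDegree_add_le _ _).trans (max_le ?_ ?_)
      · exact (Polynomial.natDegree_C_mul_le _ _).trans ((natDegree_ln _ _ _ _ _).trans hα)
      · exact (Polynomial.natDegree_C_mul_le _ _).trans ((natDegree_ln _ _ _ _ _).trans hβ)
    omega
  have h10 := congrArg (Polynomial.eval 1) h7
  simp only [Polynomial.eval_add, Polynomial.eval_mul, Polynomial.eval_C, eval_ln, Polynomial.eval_zero,
    mul_one, add_sub_cancel] at h10
  exact h10

/-- binary forms of positive degree have nontrivial roots -/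
theorem exists_root {L : Type u} [Field L] [Algebra k L] [IsAlgClosed L] {h : MvPolynomial (Fin 2) k} {N : ℕ}
    (hh : h.IsHomogeneous N) (hN : 0 < N) : ∃ a b : L, ev a b h = 0 ∧ ¬ (a = 0 ∧ b = 0) := by
  by_cases h1 : ev (1 : L) 0 h = 0
  · exact ⟨1, 0, h1, by simp⟩
  · have h2 : ev (1 : L) 0 h = algebraMap k L (coeff (ex N 0) h) := by
      conv_lhs => rw [hom_sum hh]
      rw [map_sum, Finset.sum_eq_single N]
      · rw [map_mul, map_mul, map_pow, map_pow, ev_X0, ev_X1, Nat.sub_self]
        simp [ev]
      · intro b hb hbN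
        rw [Finset.mem_range] at hb
        rw [map_mul, map_mul, map_pow, map_pow, ev_X0, ev_X1, zero_pow (by omega)]
        simp
      · intro hn; exact absurd (Finset.mem_range.2 (by omega)) hn
    have h3 : (ln (0 : L) 1 1 0 h).coeff N = algebraMap k L (coeff (ex N 0) h) := by
      conv_lhs => rw [hom_sum hh]
      rw [map_sum, Polynomial.finsetSum_coeff, Finset.sum_eq_single N]
      · rw [map_mul, map_mul, map_pow, map_pow, ln_X0, ln_X1, Nat.sub_self]
        simp [ln, IsScalarTower.algebraMap_apply k L (Polynomial L)]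
      · intro b hb hbN
        rw [map_mul, map_mul, map_pow, map_pow, ln_X0, ln_X1]
        simp [ln, IsScalarTower.algebraMap_apply k L (Polynomial L)]
        intro h; exact absurd h.symm hbN
      · intro hn; exact absurd (Finset.mem_range.2 (by omega)) hn
    rw [h2] at h1
    have h4 : (ln (0 : L) 1 1 0 h).degree ≠ 0 := by
      intro h0
      have := Polynomial.coeff_eq_zero_of_degree_lt (n := N) (p := ln (0 : L) 1 1 0 h) (by
        rw [h0]; exact_mod_cast hN)
      rw [this] at h3
      exact h1 h3.symm
    obtain ⟨t, ht⟩ := IsAlgClosed.exists_root _ h4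
    rw [Polynomial.IsRoot, eval_ln] at ht
    refine ⟨t, 1, by simpa using ht, by simp⟩

end Pool.Agent.H574R3.Alpha
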