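import Mathlib
import Pool.Agent.H574R3.Alpha.Root

set_option autoImplicit false

namespace Pool.Agent.H574R3.Alpha

open MvPolynomial

universe u

variable {k : Type u} [Field k]

theorem hat_hom {f : MvPolynomial (Fin 2) k} {d : ℕ} (hf : f.IsHomogeneous d) :
    (hat f).IsHomogeneous (4 * d) := by
  apply IsHomogeneous.aeval hf
  intro i
  fin_cases i
  · have : ((X 0 ^ 2 - X 1 ^ 2 : MvPolynomial (Fin 2) k) ^ 2).IsHomogeneous (2 * 2) :=
      IsHomogeneous.pow (IsHomogeneous.sub (isHomogeneous_X_pow 0 2) (isHomogeneous_X_pow 1 2)) 2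
    simpa using this
  · have : ((4 : MvPolynomial (Fin 2) k) * X 0 ^ 2 * X 1 ^ 2).IsHomogeneous (0 + 2 + 2) := by
      apply IsHomogeneous.mul
      · apply IsHomogeneous.mul
        · have := isHomogeneous_C (R := k) (Fin 2) 4
          rwa [map_ofNat] at this
        · exact isHomogeneous_X_pow 0 2
      · exact isHomogeneous_X_pow 1 2
    simpa using this

theorem exists_pre {L : Type u} [Field L] [IsAlgClosed L] (h2 : (2 : L) ≠ 0) (x y : L) :
    ∃ a b : L, (a ^ 2 - b ^ 2) ^ 2 = x ∧ 4 * a ^ 2 * b ^ 2 = y := by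
  obtain ⟨s, hs⟩ := IsAlgClosed.exists_pow_nat_eq x (n := 2) (by norm_num)
  obtain ⟨t, ht⟩ := IsAlgClosed.exists_pow_nat_eq y (n := 2) (by norm_num)
  obtain ⟨r, hr⟩ := IsAlgClosed.exists_pow_nat_eq (s ^ 2 + t ^ 2) (n := 2) (by norm_num)
  obtain ⟨a, ha⟩ := IsAlgClosed.exists_pow_nat_eq ((r + s) / 2) (n := 2) (by norm_num)
  obtain ⟨b, hb⟩ := IsAlgClosed.exists_pow_nat_eq ((r - s) / 2) (n := 2) (by norm_num)
  refine ⟨a, b, ?_, ?_⟩
  · rw [ha, hb, ← hs]
    have : ((r + s) / 2 - (r - s) / 2) = s := by field_simp; ring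
    rw [this]
  · rw [ha, hb, ← ht]
    have : 4 * ((r + s) / 2) * ((r - s) / 2) = r ^ 2 - s ^ 2 := by field_simp; ring
    rw [this, hr]; ring

theorem two_ne {L : Type u} [Field L] (p : ℕ) [Fact p.Prime] [CharP L p] (hp : p ≠ 2) : (2 : L) ≠ 0 := by
  intro h
  have h' : ((2 : ℕ) : L) = 0 := by exact_mod_cast h
  have h'' := ((CharP.cast_eq_zero_iff L p 2).1 h')
  exact hp ((Nat.prime_dvd_prime_iff_eq (Fact.out : p.Prime) Nat.prime_two).1 h'')

theorem eq_zero_of_ev_hat {L : Type u} [Field L] [IsAlgClosed L] [Algebra k L] (h2 : (2 : L) ≠ 0)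
    {f : MvPolynomial (Fin 2) k} (h : ∀ a b : L, ev a b (hat f) = 0) : f = 0 := by
  have h1 : ∀ x y : L, ev x y f = 0 := by
    intro x y
    obtain ⟨a, b, ha, hb⟩ := exists_pre h2 x y
    have := h a b
    rwa [ev_hat, ha, hb] at this
  have h3 : map (algebraMap k L) f = map (algebraMap k L) 0 := by
    have : Infinite L := IsAlgClosed.instInfinite
    apply MvPolynomial.funext
    intro x
    have hx : x = ![x 0, x 1] := by
      ext i; fin_cases i <;> rfl
    rw [hx, eval_map, map_zero, map_zero]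
    exact h1 (x 0) (x 1)
  exact map_injective _ (algebraMap k L).injective h3

theorem hat_ne_zero (p : ℕ) [Fact p.Prime] [CharP k p] (hp : p ≠ 2)
    {f : MvPolynomial (Fin 2) k} (hf : f ≠ 0) : hat f ≠ 0 := by
  have : CharP (AlgebraicClosure k) p := charP_of_injective_algebraMap (algebraMap k (AlgebraicClosure k)).injective p
  intro h0
  apply hf
  apply eq_zero_of_ev_hat (L := AlgebraicClosure k) (two_ne p hp)
  intro a b
  rw [h0, map_zero]

theorem P2 (p : ℕ) [Fact p.Prime] [CharP k p] (hp : p ≠ 2) {f : MvPolynomial (Fin 2) k} {d : ℕ}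
    (hf : f.IsHomogeneous d) (hd : 0 < d) (hf0 : f ≠ 0) :
    ∃ e n : ℕ, 0 < e ∧ p ^ e ≤ 4 * d * n ∧ ∃ i j, i < p ^ e ∧ j < p ^ e ∧
      coeff (ex i j) (hat (f ^ n)) ≠ 0 := by
  have hp1 : 1 < p := (Fact.out : p.Prime).one_lt
  set N := 4 * d with hN
  set e := N * N + N + 1 with he
  have hq1 : e < p ^ e := Nat.lt_pow_self hp1
  set q := p ^ e with hq
  set n := q / N + 1 with hn
  have hN0 : 0 < N := by omega
  have hdiv := Nat.div_add_mod q N
  have hmod := Nat.mod_lt q hN0
  have hnN : N * n = N * (q / N) + N := by rw [hn]; ring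
  have hqN : N + 1 ≤ q / N := by
    rw [Nat.le_div_iff_mul_le hN0]
    have : (N + 1) * N = N * N + N := by ring
    omega
  have hnq : n ≤ q := by
    have : 4 * (q / N) ≤ q := by
      calc 4 * (q / N) ≤ N * (q / N) := Nat.mul_le_mul_right _ (by omega)
        _ ≤ q := Nat.mul_div_le q N
    omega
  refine ⟨e, n, by omega, by omega, ?_⟩
  by_contra hcon
  push Not at hcon
  have hg : (hat (f ^ n)).IsHomogeneous (q + (N * n - q)) := by
    have h1 := (hat_hom (hf.pow n))
    have h2 : 4 * (d * n) = q + (N * n - q) := by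
      have : 4 * (d * n) = N * n := by rw [hN]; ring
      omega
    rwa [h2] at h1
  have hNq : N < q := by nlinarith
  obtain ⟨α, β, hα, hβ, hgab⟩ := decomp (q := q) (j := N * n - q) hg (by omega) (fun a b ha hb => hcon a b ha hb)
  rw [map_pow] at hgab
  let L := AlgebraicClosure k
  have : CharP L p := charP_of_injective_algebraMap (algebraMap k L).injective p
  have h2 : (2 : L) ≠ 0 := two_ne p hp
  have hodd : Odd q := ((Fact.out : p.Prime).odd_of_ne_two hp).pow
  obtain ⟨a, b, hab, hne⟩ := exists_root (L := L) (hat_hom hf) hN0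
  have key : ∀ a b : L, ev a b (hat f) = 0 → ∀ c d : L, a ^ q * ev c d α + b ^ q * ev c d β = 0 := by
    intro a b hab c d
    exact key_rel (p := p) (e := e) (n := n) (j := N * n - q) hα hβ (by omega) hnq hgab a b hab c d
  have hsw : ev b a (hat f) = 0 := by
    rw [ev_hat] at hab ⊢
    have e1 : (b ^ 2 - a ^ 2) ^ 2 = (a ^ 2 - b ^ 2) ^ 2 := by ring
    have e2 : 4 * b ^ 2 * a ^ 2 = 4 * a ^ 2 * b ^ 2 := by ring
    rw [e1, e2]; exact hab
  have hsg : ev a (-b) (hat f) = 0 := by
    rw [ev_hat] at hab ⊢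
    have e1 : (-b) ^ 2 = b ^ 2 := by ring
    rw [e1]; exact hab
  have hzero : ∀ c d : L, ev c d α = 0 ∧ ev c d β = 0 := by
    intro c d
    have k1 := key a b hab c d
    have k2 := key b a hsw c d
    have k3 := key a (-b) hsg c d
    rw [hodd.neg_pow] at k3
    have hq0 : q ≠ 0 := by omega
    by_cases ha : a = 0
    · subst ha
      have hb : b ≠ 0 := fun hb => hne ⟨rfl, hb⟩
      rw [zero_pow hq0, zero_mul, zero_add] at k1
      rw [zero_pow hq0, zero_mul, add_zero] at k2
      exact ⟨(mul_eq_zero.1 k2).resolve_left (pow_ne_zero _ hb), (mul_eq_zero.1 k1).resolve_left (pow_ne_zero _ hb)⟩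
    · by_cases hb : b = 0
      · subst hb
        rw [zero_pow hq0, zero_mul, add_zero] at k1
        rw [zero_pow hq0, zero_mul, zero_add] at k2
        exact ⟨(mul_eq_zero.1 k1).resolve_left (pow_ne_zero _ ha), (mul_eq_zero.1 k2).resolve_left (pow_ne_zero _ ha)⟩
      · have k4 : 2 * (b ^ q * ev c d β) = 0 := by linear_combination k1 - k3
        have k5 : ev c d β = 0 := (mul_eq_zero.1 ((mul_eq_zero.1 k4).resolve_left h2)).resolve_left (pow_ne_zero _ hb)
        rw [k5, mul_zero, add_zero] at k1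
        exact ⟨(mul_eq_zero.1 k1).resolve_left (pow_ne_zero _ ha), k5⟩
  apply hf0
  apply eq_zero_of_ev_hat (L := L) h2
  intro c d
  have h5 := congrArg (ev c d) hgab
  rw [map_pow, map_add, map_mul, map_mul, (hzero c d).1, (hzero c d).2, zero_mul, zero_mul, add_zero] at h5
  exact pow_eq_zero_iff (by omega) |>.1 h5

end Pool.Agent.H574R3.Alpha
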