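import Mathlib
import Pool.Agent.H574R3.Alpha.Two

set_option autoImplicit false

namespace Pool.Agent.H574R3.Alpha

open MvPolynomial

universe u

variable {k : Type u} [Field k]

theorem J3_hom : (J3 : MvPolynomial (Fin 2) k).IsHomogeneous 3 := by
  have : (X 0 * X 1 * (X 0 + X 1) : MvPolynomial (Fin 2) k).IsHomogeneous (1 + 1 + 1) :=
    ((isHomogeneous_X k 0).mul (isHomogeneous_X k 1)).mul ((isHomogeneous_X k 0).add (isHomogeneous_X k 1))
  simpa [J3] using this

/-- the form with given coefficients -/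
noncomputable def formOf (D : ℕ) : (Fin (D + 1) → k) →ₗ[k] MvPolynomial (Fin 2) k :=
  ∑ t : Fin (D + 1), (monomial (ex t (D - t))).comp (LinearMap.proj t)

theorem formOf_apply (D : ℕ) (c : Fin (D + 1) → k) :
    formOf D c = ∑ t : Fin (D + 1), monomial (ex t (D - t)) (c t) := by
  simp [formOf]

theorem formOf_hom (D : ℕ) (c : Fin (D + 1) → k) : (formOf D c).IsHomogeneous D := by
  rw [formOf_apply]
  apply IsHomogeneous.sum
  intro t _
  apply isHomogeneous_monomial
  rw [degree_ex]
  have := t.2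
  omega

theorem coeff_formOf (D : ℕ) (c : Fin (D + 1) → k) (t : Fin (D + 1)) :
    coeff (ex t (D - t)) (formOf D c) = c t := by
  rw [formOf_apply, coeff_sum, Finset.sum_eq_single t]
  · simp
  · intro b _ hb
    rw [coeff_monomial, if_neg]
    intro h
    apply hb
    exact Fin.ext (ex_inj.1 h).1
  · simp

theorem P3 (m : ℕ) (hm : 0 < m) : ∃ F : MvPolynomial (Fin 2) k, F ≠ 0 ∧ F.IsHomogeneous ((2 * m + 1) / 4 + 1) ∧
    ∃ a b : MvPolynomial (Fin 2) k, F * J3 ^ m = a * X 0 ^ (2 * m + 1) + b * X 1 ^ (2 * m + 1) := by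
  set q := 2 * m + 1 with hq
  set D := q / 4 + 1 with hD
  have hdm := Nat.div_add_mod q 4
  have hmod := Nat.mod_lt q (show 0 < 4 by norm_num)
  set N := D + 3 * m with hN
  let T : (Fin (D + 1) → k) →ₗ[k] (Fin (m + 1 - D) → k) :=
    LinearMap.pi (fun i => (lcoeff k (ex (N - q + 1 + i) (q - 1 - i))).comp
      ((LinearMap.mulRight k (J3 ^ m)).comp (formOf D)))
  have hker : T.ker ≠ ⊥ := by
    apply LinearMap.ker_ne_bot_of_finrank_lt
    simp only [Module.finrank_fintype_fun_eq_card, Fintype.card_fin]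
    omega
  obtain ⟨c, hc, hc0⟩ := (Submodule.ne_bot_iff _).1 hker
  rw [LinearMap.mem_ker] at hc
  refine ⟨formOf D c, ?_, formOf_hom D c, ?_⟩
  · intro h0
    apply hc0
    ext t
    rw [← coeff_formOf D c t, h0]; simp
  · have hhom : (formOf D c * J3 ^ m).IsHomogeneous (q + (N - q)) := by
      have h1 := (formOf_hom D c).mul ((J3_hom (k := k)).pow m)
      have h2 : D + 3 * m = q + (N - q) := by omega
      rwa [h2] at h1
    obtain ⟨α, β, -, -, h⟩ := decomp hhom (by omega) (by
      intro a b ha hb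
      by_cases hab : a + b = N
      · have h1 := congrFun hc ⟨a - (N - q + 1), by omega⟩
        simp only [T, LinearMap.pi_apply, LinearMap.comp_apply, lcoeff_apply, LinearMap.mulRight_apply,
          Pi.zero_apply] at h1
        have e1 : N - q + 1 + (a - (N - q + 1)) = a := by omega
        have e2 : q - 1 - (a - (N - q + 1)) = b := by omega
        rw [e1, e2] at h1
        exact h1
      · apply hhom.coeff_eq_zero
        rw [degree_ex]; omega)
    exact ⟨α, β, h⟩

end Pool.Agent.H574R3.Alpha
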