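import Mathlib
import Pool.Agent.H574R3.Alpha.Defs

set_option autoImplicit false

open scoped ENNReal NNReal
open TopologicalSpace

namespace Pool.Agent.H574R3.Alpha

universe u v

variable {S : Type u} [CommRing S] [IsDomain S]

/-- the embedding in the fraction field -/
noncomputable abbrev io : S →+* FractionRing S := algebraMap S (FractionRing S)

theorem io_inj : Function.Injective (io : S →+* FractionRing S) := IsFractionRing.injective S (FractionRing S)

theorem io_ne {s : S} (hs : s ≠ 0) : io s ≠ 0 := by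
  intro h
  exact hs (io_inj (by rw [h, map_zero]))

theorem mem_span_pow {π : S} {n : ℕ} {f : S} : f ∈ (Ideal.span {π}) ^ n ↔ π ^ n ∣ f := by
  rw [Ideal.span_singleton_pow, Ideal.mem_span_singleton]

theorem setOf_ord {π : S} (hπ : Prime π) (f : S) :
    {n : ℕ | ∃ s, s ∉ Ideal.span {π} ∧ s * f ∈ (Ideal.span {π}) ^ n} = {n | π ^ n ∣ f} := by
  ext n
  simp only [Set.mem_ofPred_eq, mem_span_pow, Ideal.mem_span_singleton]
  constructor
  · rintro ⟨s, hs, h⟩
    exact hπ.pow_dvd_of_dvd_mul_left n hs h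
  · intro h
    exact ⟨1, fun h1 => hπ.not_isUnit (isUnit_of_dvd_one h1), by simpa using h⟩

theorem le_ordAt_iff [UniqueFactorizationMonoid S] {π : S} (hπ : Prime π) {f : S} (hf : f ≠ 0) (n : ℕ) :
    n ≤ ordAt (Ideal.span {π}) f ↔ π ^ n ∣ f := by
  rw [ordAt, setOf_ord hπ]
  have hfin : FiniteMultiplicity π f := FiniteMultiplicity.of_prime_left hπ hf
  obtain ⟨N, hN⟩ := hfin
  have hbdd : BddAbove {n : ℕ | π ^ n ∣ f} := by
    refine ⟨N, fun m hm => ?_⟩
    by_contra hlt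
    push Not at hlt
    exact hN ((pow_dvd_pow π hlt).trans hm)
  have hne : {n : ℕ | π ^ n ∣ f}.Nonempty := ⟨0, by simp⟩
  constructor
  · intro h
    have := Nat.sSup_mem hne hbdd
    exact (pow_dvd_pow π h).trans this
  · intro h
    exact le_csSup hbdd h

theorem ordAt_mul [UniqueFactorizationMonoid S] {π : S} (hπ : Prime π) {f g : S} (hf : f ≠ 0) (hg : g ≠ 0) :
    ordAt (Ideal.span {π}) (f * g) = ordAt (Ideal.span {π}) f + ordAt (Ideal.span {π}) g := by
  have h1 : ∀ {f : S}, f ≠ 0 → ((ordAt (Ideal.span {π}) f : ℕ) : ℕ∞) = emultiplicity π f := by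
    intro f hf
    symm
    rw [emultiplicity_eq_coe]
    exact ⟨(le_ordAt_iff hπ hf _).1 le_rfl, fun h => by
      have := (le_ordAt_iff hπ hf _).2 h
      omega⟩
  have h2 := emultiplicity_mul (a := f) (b := g) hπ
  rw [← h1 hf, ← h1 hg, ← h1 (mul_ne_zero hf hg)] at h2
  exact_mod_cast h2

theorem ordAt_one {π : S} (hπ : Prime π) : ordAt (Ideal.span {π}) (1 : S) = 0 := by
  rw [ordAt, setOf_ord hπ]
  have : {n : ℕ | π ^ n ∣ (1 : S)} = {0} := by
    ext n
    simp only [Set.mem_ofPred_eq, Set.mem_singleton_iff]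
    constructor
    · intro h
      by_contra hn
      exact hπ.not_isUnit (isUnit_of_dvd_one ((dvd_pow_self π hn).trans h))
    · rintro rfl; simp
  rw [this]; simp

theorem ordAt_pow [UniqueFactorizationMonoid S] {π : S} (hπ : Prime π) {f : S} (hf : f ≠ 0) (n : ℕ) :
    ordAt (Ideal.span {π}) (f ^ n) = n * ordAt (Ideal.span {π}) f := by
  induction n with
  | zero => rw [pow_zero, ordAt_one hπ, zero_mul]
  | succ n ih => rw [pow_succ, ordAt_mul hπ (pow_ne_zero _ hf) hf, ih]; ring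

theorem ordAt_prime [UniqueFactorizationMonoid S] {π : S} (hπ : Prime π) {w : S} (hw : Prime w) :
    ordAt (Ideal.span {π}) w = if Ideal.span {π} = Ideal.span {w} then 1 else 0 := by
  split_ifs with h
  · rw [Ideal.span_singleton_eq_span_singleton] at h
    apply le_antisymm
    · by_contra hlt
      push Not at hlt
      have h2 := (le_ordAt_iff hπ hw.ne_zero 2).1 hlt
      have h3 : w ^ 2 ∣ w := (pow_dvd_pow_of_dvd h.symm.dvd 2).trans h2
      have h4 : w * w ∣ w * 1 := by rw [mul_one, ← pow_two]; exact h3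
      exact hw.not_isUnit (isUnit_of_dvd_one ((mul_dvd_mul_iff_left hw.ne_zero).1 h4))
    · rw [le_ordAt_iff hπ hw.ne_zero, pow_one]; exact h.dvd
  · by_contra hne
    apply h
    have h1 : π ^ 1 ∣ w := (le_ordAt_iff hπ hw.ne_zero 1).1 (by omega)
    rw [pow_one] at h1
    rw [Ideal.span_singleton_eq_span_singleton]
    exact hπ.associated_of_dvd hw h1

theorem poleLE_iff {π : S} {n : ℕ} {h : FractionRing S} :
    PoleLE (Ideal.span {π}) n h ↔ ∃ s, ¬ π ∣ s ∧ ∃ r : S, io s * (io (π ^ n) * h) = io r := by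
  constructor
  · intro H
    obtain ⟨s, hs, r, hr⟩ := H (π ^ n) (mem_span_pow.2 dvd_rfl)
    exact ⟨s, fun h => hs (Ideal.mem_span_singleton.2 h), r, hr⟩
  · rintro ⟨s, hs, r, hr⟩ b hb
    obtain ⟨c, rfl⟩ := mem_span_pow.1 hb
    refine ⟨s, fun h => hs (Ideal.mem_span_singleton.1 h), c * r, ?_⟩
    rw [map_mul, map_mul, ← hr]
    ring

theorem exists_prime_gen [UniqueFactorizationMonoid S] {P : Ideal S} (hP : P.IsPrime) (h1 : P.height = 1) :
    ∃ π, Prime π ∧ P = Ideal.span {π} := by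
  obtain ⟨x, hxmem, hxp⟩ := hP.exists_mem_prime_of_ne_bot (P.ne_bot_of_height_eq_one h1)
  exact ⟨x, hxp, P.eq_span_singleton_of_height_eq_one h1 hxmem hxp⟩

theorem height_span_prime [IsNoetherianRing S] {π : S} (hπ : Prime π) : (Ideal.span {π}).height = 1 :=
  Ideal.height_span_singleton_eq_one_of_mem_nonZeroDivisors (mem_nonZeroDivisors_of_ne_zero hπ.ne_zero)
    hπ.not_isUnit

/-- `1 / g` has poles at most `D`. -/
theorem poleLE_div [UniqueFactorizationMonoid S] {π : S} (hπ : Prime π) {g : S} (hg : g ≠ 0) {n : ℕ}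
    (hn : ordAt (Ideal.span {π}) g ≤ n) : PoleLE (Ideal.span {π}) n (1 / io g) := by
  rw [poleLE_iff]
  obtain ⟨g', hg'⟩ := (le_ordAt_iff hπ hg _).1 (le_refl (ordAt (Ideal.span {π}) g))
  set m := ordAt (Ideal.span {π}) g with hm
  refine ⟨g', ?_, π ^ (n - m), ?_⟩
  · intro h
    have : π ^ (m + 1) ∣ g := by
      rw [hg', pow_succ]
      exact mul_dvd_mul_left _ h
    have := (le_ordAt_iff hπ hg _).2 this
    omega
  · have h1 : io g = io (π ^ m) * io g' := by rw [← map_mul, ← hg']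
    have h2 : io (π ^ n) = io (π ^ m) * io (π ^ (n - m)) := by
      rw [← map_mul, ← pow_add]; congr 2; omega
    have h3 : io g ≠ 0 := io_ne hg
    have h4 : io (π ^ m) ≠ 0 := io_ne (pow_ne_zero _ hπ.ne_zero)
    have h5 : io g' ≠ 0 := by
      intro h; rw [h, mul_zero] at h1; exact h3 h1
    rw [h2, h1]
    field_simp

/-- clearing poles -/
theorem clear_poles [UniqueFactorizationMonoid S] (PP : Set S) (hPP : ∀ π ∈ PP, Prime π) (D : S → ℕ) (G : S)
    (hG : ∀ π ∈ PP, π ^ (D π) ∣ G) (h : FractionRing S)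
    (hh : ∀ π ∈ PP, PoleLE (Ideal.span {π}) (D π) h) :
    ∃ a b : S, b ≠ 0 ∧ IsRelPrime a b ∧ io G * h = io a / io b ∧ ∀ π ∈ PP, ¬ π ∣ b := by
  obtain ⟨a, b, hab, hmk⟩ := IsFractionRing.exists_reduced_fraction (A := S) (K := FractionRing S) (io G * h)
  have hb : (b : S) ≠ 0 := nonZeroDivisors.ne_zero b.2
  have hmk' : io G * h = io a / io (b : S) := by
    rw [← hmk, IsFractionRing.mk'_eq_div]
  refine ⟨a, b, hb, hab, hmk', ?_⟩
  intro π hπ hdvd
  have hp := hPP π hπ
  obtain ⟨s, hs, r, hr⟩ := poleLE_iff.1 (hh π hπ)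
  obtain ⟨G', hG'⟩ := hG π hπ
  have h1 : io (s * a) = io (G' * r * b) := by
    have h2 : io s * (io G * h) = io (G' * r) := by
      rw [hG', map_mul io, map_mul io, ← hr]; ring
    rw [hmk'] at h2
    rw [map_mul io, map_mul io, ← h2]
    field_simp [io_ne hb]
  have h3 := io_inj h1
  have h4 : π ∣ s * a := by rw [h3]; exact Dvd.dvd.mul_left hdvd _
  rcases hp.dvd_or_dvd h4 with h5 | h5
  · exact hs h5
  · exact hp.not_isUnit (hab h5 hdvd)

theorem exists_prime_dvd_mem [UniqueFactorizationMonoid S] {P : Ideal S} (hP : P.IsPrime) {b : S} (hb : b ≠ 0)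
    (hbP : b ∈ P) : ∃ π, Prime π ∧ π ∣ b ∧ π ∈ P := by
  revert hb hbP
  induction b using UniqueFactorizationMonoid.induction_on_prime with
  | h₁ => intro h; exact absurd rfl h
  | h₂ x hx => intro _ h; exact absurd (Ideal.eq_top_of_isUnit_mem _ h hx) hP.ne_top
  | h₃ a π ha hπ ih =>
    intro h0 h1
    rcases hP.mem_or_mem h1 with h | h
    · exact ⟨π, hπ, dvd_mul_right _ _, h⟩
    · obtain ⟨w, hw, hwd, hwP⟩ := ih ha h
      exact ⟨w, hw, Dvd.dvd.mul_left hwd _, hwP⟩

/-- rounding up a multiple of the divisor of `F` -/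
theorem round_up [UniqueFactorizationMonoid S] (θ : ℝ) (hθ : 0 ≤ θ) (F : S) (hF : F ≠ 0) :
    ∃ g : S, g ≠ 0 ∧ (∀ π, Prime π → ordAt (Ideal.span {π}) g ≤ ⌈θ * ordAt (Ideal.span {π}) F⌉₊) ∧
      ∀ M s : ℕ, (M : ℝ) ≤ θ * s → F ^ M ∣ g ^ s := by
  revert hF
  refine UniqueFactorizationMonoid.induction_on_coprime (P := fun F => F ≠ 0 →
    ∃ g : S, g ≠ 0 ∧ (∀ π, Prime π → ordAt (Ideal.span {π}) g ≤ ⌈θ * ordAt (Ideal.span {π}) F⌉₊) ∧
      ∀ M s : ℕ, (M : ℝ) ≤ θ * s → F ^ M ∣ g ^ s) F ?_ ?_ ?_ ?_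
  · intro h; exact absurd rfl h
  · intro x hx _
    refine ⟨1, one_ne_zero, ?_, ?_⟩
    · intro π hπ
      rw [ordAt_one hπ]; exact Nat.zero_le _
    · intro M s _
      exact (hx.pow M).dvd
  · intro w i hw _
    refine ⟨w ^ ⌈θ * i⌉₊, pow_ne_zero _ hw.ne_zero, ?_, ?_⟩
    · intro π hπ
      rw [ordAt_pow hπ hw.ne_zero, ordAt_pow hπ hw.ne_zero, ordAt_prime hπ hw]
      split_ifs
      · simp
      · simp
    · intro M s hM
      rw [← pow_mul, ← pow_mul]
      apply pow_dvd_pow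
      have h1 : ((i * M : ℕ) : ℝ) ≤ ((⌈θ * i⌉₊ * s : ℕ) : ℝ) := by
        push_cast
        have h2 : θ * i ≤ ⌈θ * i⌉₊ := Nat.le_ceil _
        have h3 : (0 : ℝ) ≤ s := Nat.cast_nonneg _
        have h4 : (0 : ℝ) ≤ i := Nat.cast_nonneg _
        nlinarith [mul_le_mul_of_nonneg_left hM h4, mul_le_mul_of_nonneg_right h2 h3]
      exact_mod_cast h1
  · intro x y hxy hx hy hxy0
    have hx0 : x ≠ 0 := left_ne_zero_of_mul hxy0
    have hy0 : y ≠ 0 := right_ne_zero_of_mul hxy0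
    obtain ⟨g1, hg1, h1, h1'⟩ := hx hx0
    obtain ⟨g2, hg2, h2, h2'⟩ := hy hy0
    refine ⟨g1 * g2, mul_ne_zero hg1 hg2, ?_, ?_⟩
    · intro π hπ
      rw [ordAt_mul hπ hg1 hg2, ordAt_mul hπ hx0 hy0]
      have h3 := h1 π hπ
      have h4 := h2 π hπ
      rcases Nat.eq_zero_or_pos (ordAt (Ideal.span {π}) x) with h5 | h5
      · rw [h5] at h3 ⊢
        simp only [Nat.cast_zero, mul_zero, Nat.ceil_zero, nonpos_iff_eq_zero] at h3
        rw [h3, zero_add, zero_add]
        exact h4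
      · rcases Nat.eq_zero_or_pos (ordAt (Ideal.span {π}) y) with h6 | h6
        · rw [h6] at h4 ⊢
          simp only [Nat.cast_zero, mul_zero, Nat.ceil_zero, nonpos_iff_eq_zero] at h4
          rw [h4, add_zero, add_zero]
          exact h3
        · exfalso
          have h7 := (le_ordAt_iff hπ hx0 1).1 h5
          have h8 := (le_ordAt_iff hπ hy0 1).1 h6
          rw [pow_one] at h7 h8
          exact hπ.not_isUnit (hxy h7 h8)
    · intro M s hM
      rw [mul_pow, mul_pow]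
      exact mul_dvd_mul (h1' M s hM) (h2' M s hM)

end Pool.Agent.H574R3.Alpha
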