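import Mathlib
import Pool.Agent.H574R3.Alpha.Ord
import Pool.Agent.H574R3.Alpha.Ker

set_option autoImplicit false

namespace Pool.Agent.H574R3.Alpha

open MvPolynomial

universe u

variable {k : Type u} [Field k]

section
variable (p : ℕ) [Fact p.Prime] [CharP k p] [PerfectRing k p] (e : ℕ)

/-- the `p ^ e`-th root -/
noncomputable def root : k ≃+* k := (iterateFrobeniusEquiv k p e).symm

theorem root_pow (c : k) : root p e (c ^ (p ^ e)) = c := by
  rw [root, RingEquiv.symm_apply_eq, iterateFrobeniusEquiv_def]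

/-- the trace map: `x ^ (q i + q - 1) y ^ (q j + q - 1) ↦ x ^ i y ^ j`, all other monomials are
mapped to zero, `q = p ^ e`. -/
noncomputable def trc (F : MvPolynomial (Fin 2) k) : MvPolynomial (Fin 2) k :=
  ∑ d ∈ F.support, if d 0 % p ^ e = p ^ e - 1 ∧ d 1 % p ^ e = p ^ e - 1 then
    monomial (ex (d 0 / p ^ e) (d 1 / p ^ e)) (root p e (coeff d F)) else 0

theorem coeff_trc (F : MvPolynomial (Fin 2) k) (i j : ℕ) :
    coeff (ex i j) (trc p e F) =
      root p e (coeff (ex (p ^ e * i + (p ^ e - 1)) (p ^ e * j + (p ^ e - 1))) F) := by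
  have hq : 0 < p ^ e := pow_pos (Fact.out : p.Prime).pos e
  set q := p ^ e with hqdef
  rw [trc, coeff_sum]
  have hmodlt : ∀ a : ℕ, (q * a + (q - 1)) % q = q - 1 := by
    intro a
    rw [Nat.mul_add_mod, Nat.mod_eq_of_lt (by omega)]
  have hdiv : ∀ a : ℕ, (q * a + (q - 1)) / q = a := by
    intro a
    rw [Nat.mul_add_div hq, Nat.div_eq_of_lt (by omega), add_zero]
  by_cases hmem : ex (q * i + (q - 1)) (q * j + (q - 1)) ∈ F.support
  · rw [Finset.sum_eq_single (ex (q * i + (q - 1)) (q * j + (q - 1)))]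
    · rw [ex_zero, ex_one, hmodlt, hmodlt, hdiv, hdiv]
      simp [← hqdef]
    · intro d _ hd
      split_ifs with h
      · rw [coeff_monomial, if_neg]
        intro h'
        rw [ex_inj] at h'
        apply hd
        rw [ex_eta d, ex_inj]
        have h1 := Nat.div_add_mod (d 0) q
        have h2 := Nat.div_add_mod (d 1) q
        rw [h'.1, h.1] at h1
        rw [h'.2, h.2] at h2
        exact ⟨h1.symm, h2.symm⟩
      · simp
    · intro h; exact absurd hmem h
  · rw [notMem_support_iff.1 hmem, map_zero]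
    apply Finset.sum_eq_zero
    intro d hd
    split_ifs with h
    · rw [coeff_monomial, if_neg]
      intro h'
      rw [ex_inj] at h'
      apply hmem
      have h1 := Nat.div_add_mod (d 0) q
      have h2 := Nat.div_add_mod (d 1) q
      rw [h'.1, h.1] at h1
      rw [h'.2, h.2] at h2
      rw [h1, h2, ← ex_eta]; exact hd
    · simp

theorem trc_ext {F G : MvPolynomial (Fin 2) k} (h : ∀ i j, coeff (ex i j) F = coeff (ex i j) G) : F = G := by
  ext d
  rw [ex_eta d]; exact h _ _

theorem trc_add (F G : MvPolynomial (Fin 2) k) : trc p e (F + G) = trc p e F + trc p e G := by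
  apply trc_ext
  intro i j
  rw [coeff_add, coeff_trc, coeff_trc, coeff_trc, coeff_add, map_add]

theorem trc_pow_mul (r F : MvPolynomial (Fin 2) k) : trc p e (r ^ (p ^ e) * F) = r * trc p e F := by
  induction r using MvPolynomial.induction_on' with
  | monomial d c =>
    apply trc_ext
    intro i j
    have hq : 0 < p ^ e := pow_pos (Fact.out : p.Prime).pos e
    rw [ex_eta d, monomial_pow, coeff_trc, coeff_monomial_mul', coeff_monomial_mul']
    have e1 : p ^ e • ex (d 0) (d 1) = ex (p ^ e * d 0) (p ^ e * d 1) := by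
      ext i; fin_cases i <;> simp
    rw [e1]
    simp only [ex_le, ex_sub]
    set q := p ^ e with hqdef
    have h1 : ∀ a i : ℕ, q * a ≤ q * i + (q - 1) ↔ a ≤ i := by
      intro a i
      constructor
      · intro h
        by_contra hlt
        push Not at hlt
        have : q * (i + 1) ≤ q * a := Nat.mul_le_mul_left _ hlt
        rw [mul_add] at this
        omega
      · intro h
        have : q * a ≤ q * i := Nat.mul_le_mul_left _ h
        omega
    simp only [h1]
    split_ifs with h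
    · rw [map_mul, hqdef, root_pow, ← hqdef, coeff_trc, ← hqdef]
      have h2 : ∀ a i : ℕ, a ≤ i → q * i + (q - 1) - q * a = q * (i - a) + (q - 1) := by
        intro a i h
        have : q * a ≤ q * i := Nat.mul_le_mul_left _ h
        rw [Nat.mul_sub]; omega
      rw [h2 _ _ h.1, h2 _ _ h.2]
    · rw [map_zero]
  | add r s hr hs =>
    rw [add_pow_char_pow, add_mul, trc_add, hr, hs, add_mul]

theorem trc_hom {F : MvPolynomial (Fin 2) k} {m : ℕ} (hF : F.IsHomogeneous (2 * (p ^ e - 1) + p ^ e * m)) :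
    (trc p e F).IsHomogeneous m := by
  have hq : 0 < p ^ e := pow_pos (Fact.out : p.Prime).pos e
  intro d hd
  rw [ex_eta d] at hd ⊢
  rw [coeff_trc] at hd
  have h1 : coeff (ex (p ^ e * d 0 + (p ^ e - 1)) (p ^ e * d 1 + (p ^ e - 1))) F ≠ 0 := by
    intro h; rw [h, map_zero] at hd; exact hd rfl
  have h2 := hF h1
  rw [Finsupp.weight_apply, Finsupp.sum_fintype _ _ (by simp)] at h2 ⊢
  simp only [Fin.sum_univ_two, ex_zero, ex_one, Pi.one_apply, smul_eq_mul, mul_one] at h2 ⊢
  have h3 : p ^ e * (d 0 + d 1) = p ^ e * m := by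
    rw [mul_add]; omega
  exact Nat.eq_of_mul_eq_mul_left hq h3

end

section
variable (p : ℕ) [Fact p.Prime] [CharP k p] [PerfectRing k p] (e : ℕ)

/-- extension of the trace map to the fraction field -/
noncomputable def trK (h : FractionRing (MvPolynomial (Fin 2) k)) : FractionRing (MvPolynomial (Fin 2) k) :=
  io (trc p e ((IsLocalization.sec (nonZeroDivisors (MvPolynomial (Fin 2) k)) h).1 *
    ((IsLocalization.sec (nonZeroDivisors (MvPolynomial (Fin 2) k)) h).2 : MvPolynomial (Fin 2) k) ^ (p ^ e - 1))) /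
    io ((IsLocalization.sec (nonZeroDivisors (MvPolynomial (Fin 2) k)) h).2 : MvPolynomial (Fin 2) k)

theorem trK_div (a b : MvPolynomial (Fin 2) k) (hb : b ≠ 0) :
    trK p e (io a / io b) = io (trc p e (a * b ^ (p ^ e - 1))) / io b := by
  have hq : 0 < p ^ e := pow_pos (Fact.out : p.Prime).pos e
  rw [trK]
  set s := IsLocalization.sec (nonZeroDivisors (MvPolynomial (Fin 2) k)) (io a / io b) with hs
  have h1 := IsLocalization.sec_spec (nonZeroDivisors (MvPolynomial (Fin 2) k)) (io a / io b)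
  rw [← hs] at h1
  have hs2 : (s.2 : MvPolynomial (Fin 2) k) ≠ 0 := nonZeroDivisors.ne_zero s.2.2
  have h2 : a * (s.2 : MvPolynomial (Fin 2) k) = s.1 * b := by
    apply io_inj
    rw [map_mul, map_mul]
    change io a / io b * io (s.2 : MvPolynomial (Fin 2) k) = io s.1 at h1
    rw [← h1]
    field_simp [io_ne hb]
  rw [div_eq_div_iff (io_ne hs2) (io_ne hb), ← map_mul, ← map_mul]
  congr 1
  rw [mul_comm _ b, mul_comm _ (s.2 : MvPolynomial (Fin 2) k), ← trc_pow_mul, ← trc_pow_mul]
  congr 1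
  have e1 : b ^ (p ^ e) = b * b ^ (p ^ e - 1) := by
    rw [← pow_succ']; congr 1; omega
  have e2 : (s.2 : MvPolynomial (Fin 2) k) ^ (p ^ e) = (s.2 : MvPolynomial (Fin 2) k) * (s.2 : MvPolynomial (Fin 2) k) ^ (p ^ e - 1) := by
    rw [← pow_succ']; congr 1; omega
  rw [e1, e2]
  linear_combination (-(b ^ (p ^ e - 1)) * (s.2 : MvPolynomial (Fin 2) k) ^ (p ^ e - 1)) * h2

theorem exists_frac (h : FractionRing (MvPolynomial (Fin 2) k)) :
    ∃ a b : MvPolynomial (Fin 2) k, b ≠ 0 ∧ h = io a / io b := by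
  obtain ⟨a, b, hb, hab⟩ := IsFractionRing.div_surjective (A := MvPolynomial (Fin 2) k) h
  exact ⟨a, b, nonZeroDivisors.ne_zero hb, hab.symm⟩

theorem trK_add (h h' : FractionRing (MvPolynomial (Fin 2) k)) : trK p e (h + h') = trK p e h + trK p e h' := by
  have hq : 0 < p ^ e := pow_pos (Fact.out : p.Prime).pos e
  obtain ⟨a, b, hb, rfl⟩ := exists_frac h
  obtain ⟨c, d, hd, rfl⟩ := exists_frac h'
  have h1 : io a / io b + io c / io d = io (a * d + c * b) / io (b * d) := by
    rw [map_add io, map_mul io, map_mul io, map_mul io]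
    field_simp [io_ne hb, io_ne hd]
  rw [h1, trK_div p e _ _ hb, trK_div p e _ _ hd, trK_div p e _ _ (mul_ne_zero hb hd)]
  have e1 : b ^ (p ^ e) = b * b ^ (p ^ e - 1) := by
    rw [← pow_succ']; congr 1; omega
  have e2 : d ^ (p ^ e) = d * d ^ (p ^ e - 1) := by
    rw [← pow_succ']; congr 1; omega
  have h2 : (a * d + c * b) * (b * d) ^ (p ^ e - 1) = d ^ (p ^ e) * (a * b ^ (p ^ e - 1)) +
      b ^ (p ^ e) * (c * d ^ (p ^ e - 1)) := by
    rw [e1, e2, mul_pow]; ring
  rw [h2, trc_add, trc_pow_mul, trc_pow_mul, map_add io, map_mul io, map_mul io, map_mul io]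
  field_simp [io_ne hb, io_ne hd]

theorem trK_pow_mul (r h : FractionRing (MvPolynomial (Fin 2) k)) :
    trK p e (r ^ (p ^ e) * h) = r * trK p e h := by
  have hq : 0 < p ^ e := pow_pos (Fact.out : p.Prime).pos e
  obtain ⟨a, b, hb, rfl⟩ := exists_frac h
  obtain ⟨c, d, hd, rfl⟩ := exists_frac r
  have h1 : (io c / io d) ^ (p ^ e) * (io a / io b) = io (c ^ (p ^ e) * a) / io (d ^ (p ^ e) * b) := by
    rw [map_mul io, map_mul io, map_pow io, map_pow io, div_pow]
    field_simp [io_ne hb, io_ne hd]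
  rw [h1, trK_div p e _ _ hb, trK_div p e _ _ (mul_ne_zero (pow_ne_zero _ hd) hb)]
  have h2 : c ^ (p ^ e) * a * (d ^ (p ^ e) * b) ^ (p ^ e - 1) =
      (c * d ^ (p ^ e - 1)) ^ (p ^ e) * (a * b ^ (p ^ e - 1)) := by
    rw [mul_pow, mul_pow, ← pow_mul, ← pow_mul, mul_comm (p ^ e) (p ^ e - 1)]; ring
  have e2 : io d ^ (p ^ e) = io d * io d ^ (p ^ e - 1) := by
    rw [← pow_succ']; congr 1; omega
  rw [h2, trc_pow_mul, map_mul io, map_mul io, map_pow io, map_mul io, map_pow io, e2]
  have := pow_ne_zero (p ^ e - 1) (io_ne hd)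
  field_simp [io_ne hb, io_ne hd]

theorem trK_io (a : MvPolynomial (Fin 2) k) : trK p e (io a) = io (trc p e a) := by
  have h := trK_div p e a 1 one_ne_zero
  rw [map_one io, div_one, div_one, one_pow, mul_one] at h
  exact h

end

end Pool.Agent.H574R3.Alpha
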