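import Mathlib
import Pool.Agent.H574R3.Alpha.Trace

set_option autoImplicit false

open scoped ENNReal NNReal

namespace Pool.Agent.H574R3.Alpha

open MvPolynomial

attribute [local instance] MvPolynomial.gradedAlgebra

universe u

/-- The divisor `1/2 (V(x) + V(y) + V(x + y))` of `Proj k[x, y]`, the projective line: half the sum
of the three points `(0 : 1)`, `(1 : 0)`, `(1 : -1)`. -/
noncomputable def halfThree (k : Type u) [Field k] : Ideal (MvPolynomial (Fin 2) k) →₀ ℚ :=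
  Finsupp.single (Ideal.span {X 0}) (1 / 2) + Finsupp.single (Ideal.span {X 1}) (1 / 2) +
    Finsupp.single (Ideal.span {X 0 + X 1}) (1 / 2)

variable {k : Type u} [Field k]

theorem prime_X0 : Prime (X 0 : MvPolynomial (Fin 2) k) := X_prime
theorem prime_X1 : Prime (X 1 : MvPolynomial (Fin 2) k) := X_prime

/-- the automorphism `x ↦ x + y`, `y ↦ y` -/
noncomputable def shear : MvPolynomial (Fin 2) k ≃ₐ[k] MvPolynomial (Fin 2) k :=
  AlgEquiv.ofAlgHom (aeval ![X 0 + X 1, X 1]) (aeval ![X 0 - X 1, X 1])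
    (by
      apply MvPolynomial.algHom_ext
      intro i
      fin_cases i <;> simp)
    (by
      apply MvPolynomial.algHom_ext
      intro i
      fin_cases i <;> simp)

theorem prime_X01 : Prime (X 0 + X 1 : MvPolynomial (Fin 2) k) := by
  have h : shear (X 0 : MvPolynomial (Fin 2) k) = X 0 + X 1 := by simp [shear]
  rw [← h]
  exact (MulEquiv.prime_iff (shear (k := k)).toMulEquiv).2 prime_X0

theorem J3_ne : (J3 : MvPolynomial (Fin 2) k) ≠ 0 :=
  mul_ne_zero (mul_ne_zero prime_X0.ne_zero prime_X1.ne_zero) prime_X01.ne_zero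

theorem halfThree_eq {π : MvPolynomial (Fin 2) k} (hπ : Prime π) :
    halfThree k (Ideal.span {π}) = (ordAt (Ideal.span {π}) J3 : ℚ) / 2 := by
  rw [J3, ordAt_mul hπ (mul_ne_zero prime_X0.ne_zero prime_X1.ne_zero) prime_X01.ne_zero,
    ordAt_mul hπ prime_X0.ne_zero prime_X1.ne_zero, ordAt_prime hπ prime_X0, ordAt_prime hπ prime_X1,
    ordAt_prime hπ prime_X01, halfThree, Finsupp.add_apply, Finsupp.add_apply, Finsupp.single_apply,
    Finsupp.single_apply, Finsupp.single_apply]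
  simp only [eq_comm (b := Ideal.span {π})]
  push_cast
  split_ifs <;> norm_num

/-- the homogeneous maximal ideal -/
noncomputable abbrev mm (k : Type u) [Field k] : Ideal (MvPolynomial (Fin 2) k) :=
  (HomogeneousIdeal.irrelevant (homogeneousSubmodule (Fin 2) k)).toIdeal

theorem mem_mm {F : MvPolynomial (Fin 2) k} : F ∈ mm k ↔ coeff 0 F = 0 := by
  rw [mm, HomogeneousIdeal.mem_iff, HomogeneousIdeal.mem_irrelevant_iff, GradedRing.proj_apply]
  have h1 : ((DirectSum.decompose (homogeneousSubmodule (Fin 2) k) F) 0 : MvPolynomial (Fin 2) k) =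
      homogeneousComponent 0 F := MvPolynomial.decomposition.decompose'_apply F 0
  rw [h1, homogeneousComponent_zero]
  constructor
  · intro h
    have := congrArg (coeff 0) h
    simpa using this
  · intro h
    rw [h, map_zero]

theorem mm_prime : (mm k).IsPrime := by
  have : mm k = RingHom.ker (constantCoeff : MvPolynomial (Fin 2) k →+* k) := by
    ext F
    rw [mem_mm, RingHom.mem_ker, constantCoeff_eq]
  rw [this]
  exact RingHom.ker_isPrime _

/-! ### the localization -/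

theorem one_mem_LR : (1 : FractionRing (MvPolynomial (Fin 2) k)) ∈ localRing (mm k) :=
  ⟨1, 1, fun h => by rw [mem_mm] at h; simp at h, by simp⟩

theorem io_mem_LR (a : MvPolynomial (Fin 2) k) : io a ∈ localRing (mm k) :=
  ⟨a, 1, fun h => by rw [mem_mm] at h; simp at h, by rw [map_one, div_one]⟩

theorem ne_of_notMem {s : MvPolynomial (Fin 2) k} (hs : s ∉ mm k) : s ≠ 0 := by
  rintro rfl; exact hs (Ideal.zero_mem _)

theorem mul_mem_LR {r h : FractionRing (MvPolynomial (Fin 2) k)} (hr : r ∈ localRing (mm k))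
    (hh : h ∈ localRing (mm k)) : r * h ∈ localRing (mm k) := by
  obtain ⟨a, s, hs, rfl⟩ := hr
  obtain ⟨b, t, ht, rfl⟩ := hh
  refine ⟨a * b, s * t, fun h => (mm_prime.mem_or_mem h).elim hs ht, ?_⟩
  rw [map_mul, map_mul, div_mul_div_comm]

theorem pow_mem_LR {r : FractionRing (MvPolynomial (Fin 2) k)} (hr : r ∈ localRing (mm k)) (n : ℕ) :
    r ^ n ∈ localRing (mm k) := by
  induction n with
  | zero => rw [pow_zero]; exact one_mem_LR
  | succ n ih => rw [pow_succ]; exact mul_mem_LR ih hr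

theorem mul_mem_LD {D : Ideal (MvPolynomial (Fin 2) k) → ℕ} {r h : FractionRing (MvPolynomial (Fin 2) k)}
    (hr : r ∈ localRing (mm k)) (hh : h ∈ localDiv (mm k) D) : r * h ∈ localDiv (mm k) D := by
  intro P hP h1 hle b hb
  obtain ⟨s, hs, c, hc⟩ := hh P hP h1 hle b hb
  obtain ⟨a, t, ht, rfl⟩ := hr
  refine ⟨t * s, fun h => (hP.mem_or_mem h).elim (fun h' => ht (hle h')) hs, a * c, ?_⟩
  have ht0 := io_ne (ne_of_notMem ht)
  change io (t * s) * (io b * (io a / io t * h)) = io (a * c)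
  have hc' : io s * (io b * h) = io c := hc
  rw [map_mul io, map_mul io, ← hc']
  field_simp

section split

variable (p : ℕ) [Fact p.Prime] [CharP k p]

/-- A sufficient condition for being sharply `F`-split, with given multiplier. -/
theorem split_of_aux [PerfectRing k p] (e : ℕ) (he : 0 < e) (Γ : Ideal (MvPolynomial (Fin 2) k) → ℝ)
    (G c0 t : MvPolynomial (Fin 2) k)
    (hG : ∀ π, Prime π → π ^ (⌈((p : ℝ) ^ e - 1) * Γ (Ideal.span {π})⌉₊) ∣ G)
    (ht : trc p e (G * c0) = t) (htm : t ∉ mm k) :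
    SharplyFSplit p (mm k) Γ := by
  have ht0 : io t ≠ 0 := io_ne (ne_of_notMem htm)
  refine ⟨e, he, fun h => trK p e (io (G * c0) * h) / io t, ?_, ?_, ?_, ?_⟩
  · intro h hh
    obtain ⟨a, b, hb, -, hab, hb'⟩ := clear_poles {π | Prime π ∧ π ∈ mm k} (fun π hπ => hπ.1)
      (fun π => ⌈((p : ℝ) ^ e - 1) * Γ (Ideal.span {π})⌉₊) G (fun π hπ => hG π hπ.1) h
      (fun π hπ => hh _ ((Ideal.span_singleton_prime hπ.1.ne_zero).2 hπ.1) (height_span_prime hπ.1)
        ((Ideal.span_singleton_le_iff_mem _).2 hπ.2))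
    have hbm : b ∉ mm k := by
      intro hmem
      obtain ⟨π, hπ, hd, hm⟩ := exists_prime_dvd_mem mm_prime hb hmem
      exact hb' π ⟨hπ, hm⟩ hd
    have h1 : io (G * c0) * h = io (a * c0) / io b := by
      rw [map_mul io, map_mul io]
      calc io G * io c0 * h = (io G * h) * io c0 := by ring
        _ = _ := by rw [hab]; ring
    have h2 : trK p e (io (G * c0) * h) / io t =
        io (trc p e (a * c0 * b ^ (p ^ e - 1))) / io (b * t) := by
      rw [h1, trK_div p e _ _ hb, map_mul io, div_div]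
    exact ⟨trc p e (a * c0 * b ^ (p ^ e - 1)), b * t, fun h => (mm_prime.mem_or_mem h).elim hbm htm, h2⟩
  · intro h _ h' _
    have : trK p e (io (G * c0) * (h + h')) / io t = trK p e (io (G * c0) * h) / io t +
        trK p e (io (G * c0) * h') / io t := by
      rw [mul_add, trK_add, add_div]
    exact this
  · intro r _ h _
    have h1 : io (G * c0) * (r ^ (p ^ e) * h) = r ^ (p ^ e) * (io (G * c0) * h) := by ring
    have h2 : trK p e (io (G * c0) * (r ^ (p ^ e) * h)) / io t = r * (trK p e (io (G * c0) * h) / io t) := by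
      rw [h1, trK_pow_mul, mul_div_assoc]
    exact h2
  · have h1 : trK p e (io (G * c0) * 1) / io t = 1 := by
      rw [mul_one, trK_io, ht]
      exact div_self ht0
    exact h1

theorem trc_coeff_zero [PerfectRing k p] (e : ℕ) (G : MvPolynomial (Fin 2) k)
    (i j : ℕ) (hi : i < p ^ e) (hj : j < p ^ e) (hc : coeff (ex i j) G ≠ 0) :
    coeff 0 (trc p e (G * (X 0 ^ (p ^ e - 1 - i) * X 1 ^ (p ^ e - 1 - j)))) ≠ 0 := by
  have h0 : (0 : Fin 2 →₀ ℕ) = ex 0 0 := by simp [ex]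
  rw [h0, coeff_trc]
  simp only [mul_zero, zero_add]
  rw [coeff_mul_mono, if_pos (by omega)]
  have e1 : p ^ e - 1 - (p ^ e - 1 - i) = i := by omega
  have e2 : p ^ e - 1 - (p ^ e - 1 - j) = j := by omega
  rw [e1, e2]
  intro h
  exact hc ((map_eq_zero_iff _ (root p e).injective).1 h)

/-- A sufficient condition for being sharply `F`-split. -/
theorem split_of [PerfectRing k p] (e : ℕ) (he : 0 < e) (Γ : Ideal (MvPolynomial (Fin 2) k) → ℝ)
    (G : MvPolynomial (Fin 2) k)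
    (hG : ∀ π, Prime π → π ^ (⌈((p : ℝ) ^ e - 1) * Γ (Ideal.span {π})⌉₊) ∣ G)
    (i j : ℕ) (hi : i < p ^ e) (hj : j < p ^ e) (hc : coeff (ex i j) G ≠ 0) :
    SharplyFSplit p (mm k) Γ :=
  split_of_aux p e he Γ G _ _ hG rfl (by rw [mem_mm]; exact trc_coeff_zero p e G i j hi hj hc)

/-- A splitting forces powers of suitable elements to be outside Frobenius powers of `(x, y)`. -/
theorem powers_of_split (e : ℕ) (Γ : Ideal (MvPolynomial (Fin 2) k) → ℝ)
    (φ : FractionRing (MvPolynomial (Fin 2) k) → FractionRing (MvPolynomial (Fin 2) k))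
    (hφ1 : ∀ h ∈ localDiv (mm k) (fun P => ⌈((p : ℝ) ^ e - 1) * Γ P⌉₊), φ h ∈ localRing (mm k))
    (hφ2 : ∀ h ∈ localDiv (mm k) (fun P => ⌈((p : ℝ) ^ e - 1) * Γ P⌉₊),
      ∀ h' ∈ localDiv (mm k) (fun P => ⌈((p : ℝ) ^ e - 1) * Γ P⌉₊), φ (h + h') = φ h + φ h')
    (hφ3 : ∀ r ∈ localRing (mm k), ∀ h ∈ localDiv (mm k) (fun P => ⌈((p : ℝ) ^ e - 1) * Γ P⌉₊),
      φ (r ^ (p ^ e) * h) = r * φ h)
    (hφ4 : φ 1 = 1) (g : MvPolynomial (Fin 2) k) (hg : g ≠ 0)
    (hgD : ∀ π, Prime π → ordAt (Ideal.span {π}) g ≤ ⌈((p : ℝ) ^ e - 1) * Γ (Ideal.span {π})⌉₊) (n : ℕ)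
    (a b : MvPolynomial (Fin 2) k) :
    g ^ (∑ i ∈ Finset.range n, (p ^ e) ^ i) ≠ a * X 0 ^ ((p ^ e) ^ n) + b * X 1 ^ ((p ^ e) ^ n) := by
  have hg1 : 1 / io g ∈ localDiv (mm k) (fun P => ⌈((p : ℝ) ^ e - 1) * Γ P⌉₊) := by
    intro P hP h1 _
    obtain ⟨π, hπ, rfl⟩ := exists_prime_gen hP h1
    exact poleLE_div hπ hg (hgD π hπ)
  have hmem : ∀ r ∈ localRing (mm k), r / io g ∈ localDiv (mm k) (fun P => ⌈((p : ℝ) ^ e - 1) * Γ P⌉₊) := by
    intro r hr
    have := mul_mem_LD hr hg1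
    rwa [mul_one_div] at this
  have key : ∀ n : ℕ, ∃ ψ : FractionRing (MvPolynomial (Fin 2) k) → FractionRing (MvPolynomial (Fin 2) k),
      (∀ r ∈ localRing (mm k), ψ r ∈ localRing (mm k)) ∧
      (∀ r ∈ localRing (mm k), ∀ r' ∈ localRing (mm k), ψ (r + r') = ψ r + ψ r') ∧
      (∀ r ∈ localRing (mm k), ∀ r' ∈ localRing (mm k), ψ (r ^ ((p ^ e) ^ n) * r') = r * ψ r') ∧
      ψ (io (g ^ (∑ i ∈ Finset.range n, (p ^ e) ^ i))) = 1 := by
    intro n
    induction n with
    | zero => exact ⟨fun r => r, fun r hr => hr, fun _ _ _ _ => rfl, fun r _ r' _ => by simp, by simp⟩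
    | succ n ih =>
      obtain ⟨ψ, h1, h2, h3, h4⟩ := ih
      refine ⟨fun r => ψ (φ (r / io g)), ?_, ?_, ?_, ?_⟩
      · intro r hr
        exact h1 _ (hφ1 _ (hmem r hr))
      · intro r hr r' hr'
        change ψ (φ ((r + r') / io g)) = _
        rw [add_div, hφ2 _ (hmem r hr) _ (hmem r' hr'), h2 _ (hφ1 _ (hmem r hr)) _ (hφ1 _ (hmem r' hr'))]
      · intro r hr r' hr'
        change ψ (φ ((r ^ ((p ^ e) ^ (n + 1)) * r') / io g)) = r * ψ (φ (r' / io g))
        have e1 : (r ^ ((p ^ e) ^ (n + 1)) * r') / io g = (r ^ ((p ^ e) ^ n)) ^ (p ^ e) * (r' / io g) := by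
          rw [pow_succ (p ^ e) n, pow_mul, mul_div_assoc]
        rw [e1, hφ3 _ (pow_mem_LR hr _) _ (hmem r' hr'), h3 _ hr _ (hφ1 _ (hmem r' hr'))]
      · change ψ (φ (io (g ^ (∑ i ∈ Finset.range (n + 1), (p ^ e) ^ i)) / io g)) = 1
        have e1 : io (g ^ (∑ i ∈ Finset.range (n + 1), (p ^ e) ^ i)) / io g =
            (io (g ^ (∑ i ∈ Finset.range n, (p ^ e) ^ i))) ^ (p ^ e) * 1 := by
          rw [Finset.sum_range_succ', pow_zero, pow_add, pow_one, map_mul, mul_one, mul_div_assoc,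
            div_self (io_ne hg), mul_one, ← map_pow, ← pow_mul, Finset.sum_mul]
          simp only [pow_succ]
        have hone : (1 : FractionRing (MvPolynomial (Fin 2) k)) ∈
            localDiv (mm k) (fun P => ⌈((p : ℝ) ^ e - 1) * Γ P⌉₊) := by
          have := hmem (io g) (io_mem_LR g)
          rwa [div_self (io_ne hg)] at this
        rw [e1, hφ3 _ (io_mem_LR _) _ hone, hφ4, mul_one, h4]
  obtain ⟨ψ, h1, h2, h3, h4⟩ := key n
  intro heq
  rw [heq] at h4
  have e1 : io (a * X 0 ^ ((p ^ e) ^ n) + b * X 1 ^ ((p ^ e) ^ n)) =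
      (io (X 0)) ^ ((p ^ e) ^ n) * io a + (io (X 1)) ^ ((p ^ e) ^ n) * io b := by
    rw [map_add, map_mul, map_mul, map_pow, map_pow]; ring
  rw [e1, h2 _ (mul_mem_LR (pow_mem_LR (io_mem_LR _) _) (io_mem_LR _)) _
    (mul_mem_LR (pow_mem_LR (io_mem_LR _) _) (io_mem_LR _)), h3 _ (io_mem_LR _) _ (io_mem_LR _),
    h3 _ (io_mem_LR _) _ (io_mem_LR _)] at h4
  obtain ⟨a', s, hs, ha'⟩ := h1 _ (io_mem_LR a)
  obtain ⟨b', t, ht, hb'⟩ := h1 _ (io_mem_LR b)
  rw [ha', hb'] at h4
  have hs0 := io_ne (ne_of_notMem hs)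
  have ht0 := io_ne (ne_of_notMem ht)
  have h5 : io (X 0 * a' * t + X 1 * b' * s) = io (s * t) := by
    rw [map_add, map_mul, map_mul, map_mul, map_mul, map_mul]
    change io (X 0) * (io a' / io s) + io (X 1) * (io b' / io t) = 1 at h4
    field_simp at h4
    rw [← h4]; ring
  have h6 := io_inj h5
  have h7 : s * t ∈ mm k := by
    rw [← h6]
    have hX0 : (X 0 : MvPolynomial (Fin 2) k) ∈ mm k := by rw [mem_mm]; simp
    have hX1 : (X 1 : MvPolynomial (Fin 2) k) ∈ mm k := by rw [mem_mm]; simp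
    exact Ideal.add_mem _ (Ideal.mul_mem_right _ _ (Ideal.mul_mem_right _ _ hX0))
      (Ideal.mul_mem_right _ _ (Ideal.mul_mem_right _ _ hX1))
  exact (mm_prime.mem_or_mem h7).elim hs ht

end split

end Pool.Agent.H574R3.Alpha
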