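import Mathlib
import Pool.Agent.H574R3.Alpha.Ring

set_option autoImplicit false

open scoped ENNReal NNReal

namespace Pool.Agent.H574R3.Alpha

open MvPolynomial

attribute [local instance] MvPolynomial.gradedAlgebra

universe u

variable {k : Type u} [Field k]

theorem mem_frob {G : MvPolynomial (Fin 2) k} {q : ℕ}
    (h : ∀ i j, i < q → j < q → coeff (ex i j) G = 0) :
    ∃ a b : MvPolynomial (Fin 2) k, G = a * X 0 ^ q + b * X 1 ^ q := by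
  have h1 : G ∈ Ideal.span ((fun s => monomial s (1 : k)) '' ({ex q 0, ex 0 q} : Set (Fin 2 →₀ ℕ))) := by
    rw [mem_ideal_span_monomial_image]
    intro d hd
    by_cases h0 : q ≤ d 0
    · refine ⟨ex q 0, by simp, ?_⟩
      rw [ex_eta d, ex_le]; exact ⟨h0, Nat.zero_le _⟩
    · by_cases h1 : q ≤ d 1
      · refine ⟨ex 0 q, by simp, ?_⟩
        rw [ex_eta d, ex_le]; exact ⟨Nat.zero_le _, h1⟩
      · exfalso
        rw [mem_support_iff, ex_eta d] at hd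
        exact hd (h _ _ (by omega) (by omega))
  rw [Set.image_pair, ← X_pow_mul_X_pow, ← X_pow_mul_X_pow, pow_zero, pow_zero, mul_one, one_mul,
    Ideal.mem_span_pair] at h1
  obtain ⟨a, b, hab⟩ := h1
  exact ⟨a, b, hab.symm⟩

section
variable (p : ℕ) [Fact p.Prime] [CharP k p]

theorem q_facts (hp : p ≠ 2) (e : ℕ) : 2 * ((p ^ e - 1) / 2) = p ^ e - 1 ∧ 0 < p ^ e := by
  have hq0 : 0 < p ^ e := pow_pos (Fact.out : p.Prime).pos e
  have hodd : Odd (p ^ e) := ((Fact.out : p.Prime).odd_of_ne_two hp).pow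
  obtain ⟨m, hm⟩ := hodd
  omega

theorem q_real (hp : p ≠ 2) (e : ℕ) : (p : ℝ) ^ e - 1 = 2 * (((p ^ e - 1) / 2 : ℕ) : ℝ) := by
  obtain ⟨h1, h2⟩ := q_facts p hp e
  have h3 : ((2 * ((p ^ e - 1) / 2) : ℕ) : ℝ) = ((p ^ e - 1 : ℕ) : ℝ) := by rw [h1]
  rw [Nat.cast_sub h2] at h3
  push_cast at h3 ⊢
  linarith

/-- the rounded-up divisor -/
theorem ceil_eq (hp : p ≠ 2) (e : ℕ) (lam : ℝ≥0) (f : MvPolynomial (Fin 2) k) {π : MvPolynomial (Fin 2) k}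
    (hπ : Prime π) :
    ⌈((p : ℝ) ^ e - 1) * (((halfThree k (Ideal.span {π}) : ℚ) : ℝ) + lam * ordAt (Ideal.span {π}) f)⌉₊ =
      (p ^ e - 1) / 2 * ordAt (Ideal.span {π}) J3 + ⌈(lam * ((p : ℝ) ^ e - 1)) * ordAt (Ideal.span {π}) f⌉₊ := by
  have h1 := q_real p hp e
  rw [halfThree_eq hπ]
  have h2 : ((p : ℝ) ^ e - 1) * ((((ordAt (Ideal.span {π}) (J3 : MvPolynomial (Fin 2) k) : ℚ) / 2 : ℚ) : ℝ) +
      lam * ordAt (Ideal.span {π}) f) = (((p ^ e - 1) / 2 * ordAt (Ideal.span {π}) (J3 : MvPolynomial (Fin 2) k) : ℕ) : ℝ) +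
      (lam * ((p : ℝ) ^ e - 1)) * ordAt (Ideal.span {π}) f := by
    push_cast
    rw [h1]; ring
  rw [h2, add_comm, Nat.ceil_add_natCast, add_comm]
  rw [h1]; positivity

/-- `fpt(f) deg f > 1/4` -/
theorem quarter_lt [PerfectRing k p] (hp : p ≠ 2) {f : MvPolynomial (Fin 2) k} {d : ℕ} (hd : 0 < d)
    (hf : f.IsHomogeneous d) (hf0 : f ≠ 0) :
    (1 / 4 : ℝ≥0∞) < fpt (homogeneousSubmodule (Fin 2) k) p (halfThree k) f * d := by
  obtain ⟨e, n, he, hn, i, j, hi, hj, hc⟩ := P2 p hp hf hd hf0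
  obtain ⟨hq, hq0⟩ := q_facts p hp e
  have hq1 : 1 < p ^ e := Nat.one_lt_pow (by omega) (Fact.out : p.Prime).one_lt
  -- some coefficient of `f ^ n * J3 ^ m` is nonzero
  obtain ⟨i', j', hi', hj', hc'⟩ : ∃ i' j', i' < p ^ e ∧ j' < p ^ e ∧
      coeff (ex i' j') (f ^ n * J3 ^ ((p ^ e - 1) / 2)) ≠ 0 := by
    by_contra hcon
    push Not at hcon
    obtain ⟨a, b, hab⟩ := mem_frob (q := p ^ e) (fun i j hi hj => hcon i j hi hj)
    exact hc (P1 p e hp _ a b hab i j hi hj)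
  set lam : ℝ≥0 := (n : ℝ≥0) / ((p ^ e - 1 : ℕ) : ℝ≥0) with hlam
  have hlamR : (lam : ℝ) * ((p : ℝ) ^ e - 1) = n := by
    rw [hlam]
    have h1 : ((p ^ e - 1 : ℕ) : ℝ) = (p : ℝ) ^ e - 1 := by
      rw [Nat.cast_sub hq0]; push_cast; ring
    rw [NNReal.coe_div, NNReal.coe_natCast, NNReal.coe_natCast, h1]
    have h2 : (p : ℝ) ^ e - 1 ≠ 0 := by
      rw [← h1]
      have : 0 < p ^ e - 1 := by omega
      positivity
    field_simp
  have hsplit : SharplyFSplit p (mm k) (fun P => ((halfThree k P : ℚ) : ℝ) + lam * ordAt P f) := by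
    apply split_of p e he _ (f ^ n * J3 ^ ((p ^ e - 1) / 2)) _ i' j' hi' hj' hc'
    intro π hπ
    rw [ceil_eq p hp e lam f hπ, hlamR]
    have h1 : ((n : ℝ) * (ordAt (Ideal.span {π}) f : ℝ)) = ((n * ordAt (Ideal.span {π}) f : ℕ) : ℝ) := by
      push_cast; ring
    rw [h1, Nat.ceil_natCast, ← le_ordAt_iff hπ (mul_ne_zero (pow_ne_zero _ hf0) (pow_ne_zero _ J3_ne)),
      ordAt_mul hπ (pow_ne_zero _ hf0) (pow_ne_zero _ J3_ne), ordAt_pow hπ hf0, ordAt_pow hπ J3_ne]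
    omega
  have h1 : (lam : ℝ≥0∞) ≤ fpt (homogeneousSubmodule (Fin 2) k) p (halfThree k) f := by
    rw [fpt]
    exact le_iSup₂_of_le lam hsplit le_rfl
  refine lt_of_lt_of_le ?_ (mul_le_mul_left h1 (d : ℝ≥0∞))
  have h2 : ((1 / 4 : ℝ≥0) : ℝ≥0∞) = 1 / 4 := by
    rw [ENNReal.coe_div (by norm_num)]; norm_num
  rw [← h2]
  have h3 : (lam : ℝ≥0∞) * (d : ℝ≥0∞) = ((lam * d : ℝ≥0) : ℝ≥0∞) := by push_cast; rfl
  rw [h3, ENNReal.coe_lt_coe, hlam]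
  rw [div_mul_eq_mul_div, div_lt_div_iff₀ (by norm_num) (by
    have : 0 < p ^ e - 1 := by omega
    exact_mod_cast this)]
  have h4 : 1 * (p ^ e - 1) < n * d * 4 := by
    have : 4 * d * n = n * d * 4 := by ring
    omega
  exact_mod_cast h4

/-- upper bound for the thresholds of the forms of `P3`. -/
theorem lam_le (hp : p ≠ 2) (e0 : ℕ) (F0 a b : MvPolynomial (Fin 2) k) (hF0 : F0 ≠ 0)
    (hab : F0 * J3 ^ ((p ^ e0 - 1) / 2) = a * X 0 ^ (p ^ e0) + b * X 1 ^ (p ^ e0)) (lam : ℝ≥0)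
    (h : SharplyFSplit p (mm k) (fun P => ((halfThree k P : ℚ) : ℝ) + lam * ordAt P F0)) :
    (lam : ℝ) ≤ 1 / (p : ℝ) ^ e0 := by
  by_contra hlt
  push Not at hlt
  obtain ⟨e, he, φ, h1, h2, h3, h4⟩ := h
  have hp0 : (0 : ℝ) < p := by exact_mod_cast (Fact.out : p.Prime).pos
  have hp1 : 1 < p := (Fact.out : p.Prime).one_lt
  obtain ⟨hq, hq0⟩ := q_facts p hp e
  obtain ⟨hq', hq0'⟩ := q_facts p hp e0
  have hqr := q_real p hp e
  have hθ : 0 ≤ (lam : ℝ) * ((p : ℝ) ^ e - 1) := by rw [hqr]; positivity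
  obtain ⟨g1, hg1, ho, hdv⟩ := round_up ((lam : ℝ) * ((p : ℝ) ^ e - 1)) hθ F0 hF0
  have hg : J3 ^ ((p ^ e - 1) / 2) * g1 ≠ 0 := mul_ne_zero (pow_ne_zero _ J3_ne) hg1
  -- choice of `n`
  have hpos : 0 < (lam : ℝ) - 1 / (p : ℝ) ^ e0 := by linarith
  have hqe : (1 : ℝ) < (p : ℝ) ^ e := by
    have : 1 < p ^ e := Nat.one_lt_pow (by omega) hp1
    exact_mod_cast this
  obtain ⟨n1, hn1⟩ := pow_unbounded_of_one_lt ((lam : ℝ) / ((lam : ℝ) - 1 / (p : ℝ) ^ e0)) hqe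
  set n := max n1 e0 with hn
  have hQ : (lam : ℝ) / ((lam : ℝ) - 1 / (p : ℝ) ^ e0) < ((p : ℝ) ^ e) ^ n :=
    lt_of_lt_of_le hn1 (pow_le_pow_right₀ hqe.le (le_max_left _ _))
  have hne : e0 ≤ e * n := by
    have : e0 ≤ n := le_max_right _ _
    nlinarith
  set s := ∑ i ∈ Finset.range n, (p ^ e) ^ i with hs
  set M := p ^ (e * n - e0) with hM
  have hgs : (p ^ e - 1) * s = (p ^ e) ^ n - 1 := by
    have := Nat.geomSum_eq (m := p ^ e) (by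
      have : 1 < p ^ e := Nat.one_lt_pow (by omega) hp1
      omega) n
    rw [hs, this]
    apply Nat.mul_div_cancel'
    simpa using Nat.sub_dvd_pow_sub_pow (p ^ e) 1 n
  have hMQ : p ^ e0 * M = (p ^ e) ^ n := by
    rw [hM, ← pow_add, ← pow_mul]; congr 1; omega
  have hQ1 : 1 ≤ (p ^ e) ^ n := Nat.one_le_iff_ne_zero.2 (by positivity)
  have hθs : (M : ℝ) ≤ (lam : ℝ) * ((p : ℝ) ^ e - 1) * s := by
    have e1 : ((p : ℝ) ^ e - 1) * s = ((p : ℝ) ^ e) ^ n - 1 := by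
      have h5 : (((p ^ e - 1) * s : ℕ) : ℝ) = (((p ^ e) ^ n - 1 : ℕ) : ℝ) := by rw [hgs]
      rw [Nat.cast_mul, Nat.cast_sub hq0, Nat.cast_sub hQ1] at h5
      push_cast at h5
      exact h5
    rw [mul_assoc, e1]
    have e2 : (p : ℝ) ^ e0 * M = ((p : ℝ) ^ e) ^ n := by exact_mod_cast hMQ
    have e3 : (M : ℝ) = ((p : ℝ) ^ e) ^ n * (1 / (p : ℝ) ^ e0) := by
      rw [← e2]
      field_simp
    rw [e3]
    rw [div_lt_iff₀ hpos] at hQ
    nlinarith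
  have hd1 : F0 ^ M ∣ g1 ^ s := hdv M s hθs
  have hd2 : (p ^ e0 - 1) / 2 * M ≤ (p ^ e - 1) / 2 * s := by
    have e1 : 2 * ((p ^ e0 - 1) / 2 * M) = (p ^ e) ^ n - M := by
      rw [← mul_assoc, hq', Nat.sub_mul, hMQ, one_mul]
    have e2 : 2 * ((p ^ e - 1) / 2 * s) = (p ^ e) ^ n - 1 := by
      rw [← mul_assoc, hq, hgs]
    have e3 : 1 ≤ M := Nat.one_le_iff_ne_zero.2 (by positivity)
    omega
  have hd3 : (F0 * J3 ^ ((p ^ e0 - 1) / 2)) ^ M ∣ (J3 ^ ((p ^ e - 1) / 2) * g1) ^ s := by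
    rw [mul_pow, mul_pow, ← pow_mul, ← pow_mul, mul_comm (J3 ^ ((p ^ e - 1) / 2 * s))]
    exact mul_dvd_mul hd1 (pow_dvd_pow _ hd2)
  obtain ⟨c, hc⟩ := hd3
  refine powers_of_split p e _ φ h1 h2 h3 h4 _ hg ?_ n (c * a ^ M) (c * b ^ M) ?_
  · intro π hπ
    rw [ceil_eq p hp e lam F0 hπ, ordAt_mul hπ (pow_ne_zero _ J3_ne) hg1, ordAt_pow hπ J3_ne]
    exact Nat.add_le_add_left (ho π hπ) _
  · rw [← hs, hc, hab, hM, add_pow_char_pow, ← hM, mul_pow, mul_pow, ← pow_mul, ← pow_mul, hMQ]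
    ring

/-- the upper bound for the alpha-invariant -/
theorem alpha_le (hp : p ≠ 2) (e0 : ℕ) (he0 : 0 < e0) :
    alphaF (homogeneousSubmodule (Fin 2) k) p (halfThree k) ≤ 1 / 4 + (1 / 3 : ℝ≥0∞) ^ e0 := by
  obtain ⟨hq', hq0'⟩ := q_facts p hp e0
  have hp1 : 1 < p := (Fact.out : p.Prime).one_lt
  have hq1 : 1 < p ^ e0 := Nat.one_lt_pow (by omega) hp1
  have e1 : 2 * ((p ^ e0 - 1) / 2) + 1 = p ^ e0 := by omega
  obtain ⟨F0, hF0, hhom, a, b, hab⟩ := P3 (k := k) ((p ^ e0 - 1) / 2) (by omega)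
  rw [e1] at hhom hab
  have h1 : fpt (homogeneousSubmodule (Fin 2) k) p (halfThree k) F0 ≤ ((1 / (p : ℝ≥0) ^ e0 : ℝ≥0) : ℝ≥0∞) := by
    rw [fpt]
    apply iSup₂_le
    intro lam hlam
    rw [ENNReal.coe_le_coe]
    have := lam_le p hp e0 F0 a b hF0 hab lam hlam
    rw [← NNReal.coe_le_coe]
    push_cast
    exact this
  have h2 : alphaF (homogeneousSubmodule (Fin 2) k) p (halfThree k) ≤
      fpt (homogeneousSubmodule (Fin 2) k) p (halfThree k) F0 * ((p ^ e0 / 4 + 1 : ℕ) : ℝ≥0∞) := by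
    rw [alphaF]
    refine iInf_le_of_le (p ^ e0 / 4 + 1) (iInf_le_of_le F0 (iInf_le_of_le ⟨by omega, hhom, hF0⟩ le_rfl))
  refine h2.trans ((mul_le_mul_left h1 _).trans ?_)
  have h3 : ((1 / (p : ℝ≥0) ^ e0 : ℝ≥0) : ℝ≥0∞) * ((p ^ e0 / 4 + 1 : ℕ) : ℝ≥0∞) =
      ((1 / (p : ℝ≥0) ^ e0 * ((p ^ e0 / 4 + 1 : ℕ) : ℝ≥0) : ℝ≥0) : ℝ≥0∞) := by
    rw [ENNReal.coe_mul]; rfl
  have h4 : (1 / 4 + (1 / 3 : ℝ≥0∞) ^ e0) = ((1 / 4 + (1 / 3) ^ e0 : ℝ≥0) : ℝ≥0∞) := by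
    rw [ENNReal.coe_add, ENNReal.coe_pow, ENNReal.coe_div (by norm_num), ENNReal.coe_div (by norm_num)]
    norm_num
  rw [h3, h4, ENNReal.coe_le_coe, ← NNReal.coe_le_coe]
  rw [NNReal.coe_mul, NNReal.coe_add, NNReal.coe_div, NNReal.coe_div, NNReal.coe_pow, NNReal.coe_pow,
    NNReal.coe_div, NNReal.coe_natCast, NNReal.coe_natCast]
  simp only [NNReal.coe_one, NNReal.coe_ofNat]
  have h5 : ((p ^ e0 / 4 + 1 : ℕ) : ℝ) ≤ (p : ℝ) ^ e0 / 4 + 1 := by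
    push_cast
    have := Nat.cast_div_le (α := ℝ) (m := p ^ e0) (n := 4)
    push_cast at this
    linarith
  have hpp : (0 : ℝ) < (p : ℝ) ^ e0 := by positivity
  have h3p : (3 : ℝ) ≤ p := by
    have : 3 ≤ p := by
      have h2 := (Fact.out : p.Prime).two_le
      omega
    exact_mod_cast this
  have h6 : (1 / (p : ℝ) ^ e0) ≤ (1 / 3) ^ e0 := by
    rw [div_pow, one_pow]
    apply one_div_le_one_div_of_le (by positivity)
    exact pow_le_pow_left₀ (by norm_num) h3p _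
  calc 1 / (p : ℝ) ^ e0 * ((p ^ e0 / 4 + 1 : ℕ) : ℝ) ≤ 1 / (p : ℝ) ^ e0 * ((p : ℝ) ^ e0 / 4 + 1) := by
        apply mul_le_mul_of_nonneg_left h5; positivity
    _ = 1 / 4 + 1 / (p : ℝ) ^ e0 := by field_simp
    _ ≤ 1 / 4 + (1 / 3) ^ e0 := by linarith

theorem alpha_eq [PerfectRing k p] (hp : p ≠ 2) :
    alphaF (homogeneousSubmodule (Fin 2) k) p (halfThree k) = 1 / 4 := by
  apply le_antisymm
  · have hlim : Filter.Tendsto (fun e0 : ℕ => (1 / 4 : ℝ≥0∞) + (1 / 3 : ℝ≥0∞) ^ e0) Filter.atTop (nhds (1 / 4 + 0)) := by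
      refine Filter.Tendsto.add tendsto_const_nhds (ENNReal.tendsto_pow_atTop_nhds_zero_of_lt_one ?_)
      rw [ENNReal.div_lt_iff (by norm_num) (by norm_num)]
      norm_num
    rw [add_zero] at hlim
    refine ge_of_tendsto hlim ?_
    filter_upwards [Filter.eventually_gt_atTop 0] with e0 he0
    exact alpha_le p hp e0 he0
  · rw [alphaF]
    apply le_iInf; intro d
    apply le_iInf; intro f
    apply le_iInf; intro h
    exact (quarter_lt p hp h.1 h.2.1 h.2.2).le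

end

end Pool.Agent.H574R3.Alpha
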