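import Mathlib
import Pool.Agent.H574R3.Alpha.Value

set_option autoImplicit false

open scoped ENNReal NNReal
open TopologicalSpace

namespace Pool.Agent.H574R3.Alpha

open MvPolynomial

attribute [local instance] MvPolynomial.gradedAlgebra

universe u

variable {k : Type u} [Field k]

/-- factors of homogeneous polynomials are homogeneous -/
theorem homog_of_dvd {σ : Type*} [Finite σ] {F G : MvPolynomial σ k} {n : ℕ} (hF : F.IsHomogeneous n)
    (hF0 : F ≠ 0) (h : G ∣ F) : G.IsHomogeneous G.totalDegree := by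
  obtain ⟨K, rfl⟩ := h
  have hG0 : G ≠ 0 := left_ne_zero_of_mul hF0
  have hK0 : K ≠ 0 := right_ne_zero_of_mul hF0
  have hle : ∀ P : MvPolynomial σ k, P ≠ 0 → (P : MvPowerSeries σ k).order ≤ P.totalDegree := by
    intro P hP
    obtain ⟨d, hd⟩ := MvPolynomial.ne_zero_iff.1 hP
    have h1 : (P : MvPowerSeries σ k).order ≤ (d.degree : ℕ∞) :=
      MvPowerSeries.order_le (by simpa using hd)
    refine h1.trans ?_
    have h2 : d.degree ≤ P.totalDegree := by
      have := MvPolynomial.le_totalDegree (p := P) (s := d) (MvPolynomial.mem_support_iff.2 hd)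
      simpa [Finsupp.degree_apply, Finsupp.sum] using this
    exact_mod_cast h2
  have hmul : ((G * K : MvPolynomial σ k) : MvPowerSeries σ k).order =
      (G : MvPowerSeries σ k).order + (K : MvPowerSeries σ k).order := by
    rw [MvPolynomial.coe_mul, MvPowerSeries.order_mul]
  have hFo : (n : ℕ∞) ≤ ((G * K : MvPolynomial σ k) : MvPowerSeries σ k).order := by
    apply MvPowerSeries.nat_le_order
    intro d hd
    rw [MvPolynomial.coeff_coe]
    by_contra hne
    have := hF hne
    have h' : d.degree = n := by rw [← this, Finsupp.degree_eq_weight_one]; rfl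
    omega
  have hT : (G * K).totalDegree = n := hF.totalDegree hF0
  rw [MvPolynomial.totalDegree_mul_of_isDomain hG0 hK0] at hT
  have hGo := hle G hG0
  have hKo := hle K hK0
  rw [hmul] at hFo
  intro d hd
  have h1 : (G : MvPowerSeries σ k).order ≤ (d.degree : ℕ∞) :=
      MvPowerSeries.order_le (by simpa using hd)
  have h2 : d.degree ≤ G.totalDegree := by
      have := MvPolynomial.le_totalDegree (p := G) (s := d) (MvPolynomial.mem_support_iff.2 hd)
      simpa [Finsupp.degree_apply, Finsupp.sum] using this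
  have h3 : (n : ℕ∞) ≤ (d.degree : ℕ∞) + (K.totalDegree : ℕ∞) := hFo.trans (add_le_add h1 hKo)
  have h4 : n ≤ d.degree + K.totalDegree := by exact_mod_cast h3
  have h5 : d.degree = G.totalDegree := by omega
  rw [← h5, Finsupp.degree_eq_weight_one]
  rfl

/-- the homogeneous ideal generated by a homogeneous prime element, as a point of `Proj` -/
noncomputable def pt (x : ProjectiveSpectrum (homogeneousSubmodule (Fin 2) k)) {π : MvPolynomial (Fin 2) k}
    {m : ℕ} (hπ : Prime π) (hm : π.IsHomogeneous m) (hx : π ∈ x.asHomogeneousIdeal) :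
    ProjectiveSpectrum (homogeneousSubmodule (Fin 2) k) where
  asHomogeneousIdeal := ⟨Ideal.span {π}, Ideal.homogeneous_span _ _ (by
    rintro y hy
    rw [Set.mem_singleton_iff] at hy
    subst hy
    exact ⟨m, hm⟩)⟩
  isPrime := (Ideal.span_singleton_prime hπ.ne_zero).2 hπ
  not_irrelevant_le := by
    intro h
    apply x.not_irrelevant_le
    refine h.trans ?_
    intro y hy
    have hy' : y ∈ Ideal.span {π} := hy
    rw [Ideal.mem_span_singleton] at hy'
    obtain ⟨c, rfl⟩ := hy'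
    exact Ideal.mul_mem_right _ _ hx

theorem pt_mem {x : ProjectiveSpectrum (homogeneousSubmodule (Fin 2) k)} {π : MvPolynomial (Fin 2) k}
    {m : ℕ} (hπ : Prime π) (hm : π.IsHomogeneous m) (hx : π ∈ x.asHomogeneousIdeal)
    {U : Opens (ProjectiveSpectrum (homogeneousSubmodule (Fin 2) k))} (hU : x ∈ U) : pt x hπ hm hx ∈ U := by
  have h1 : pt x hπ hm hx ≤ x := by
    rw [← ProjectiveSpectrum.as_ideal_le_as_ideal]
    intro y hy
    have hy' : y ∈ Ideal.span {π} := hy
    rw [Ideal.mem_span_singleton] at hy'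
    obtain ⟨c, rfl⟩ := hy'
    exact Ideal.mul_mem_right _ _ hx
  rw [ProjectiveSpectrum.le_iff_mem_closure] at h1
  by_contra hcon
  have h2 : closure {pt x hπ hm hx} ⊆ ((U : Set (ProjectiveSpectrum (homogeneousSubmodule (Fin 2) k)))ᶜ) := by
    apply closure_minimal
    · rintro y hy
      rw [Set.mem_singleton_iff] at hy
      subst hy
      exact hcon
    · exact isClosed_compl_iff.2 U.isOpen
  exact h2 h1 hU

open Classical in
/-- a homogeneous generator of a principal homogeneous prime ideal -/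
noncomputable def gen (P : Ideal (MvPolynomial (Fin 2) k)) : MvPolynomial (Fin 2) k :=
  if h : ∃ π, Prime π ∧ (∃ m, π.IsHomogeneous m) ∧ P = Ideal.span {π} then h.choose else 1

theorem gen_ne (P : Ideal (MvPolynomial (Fin 2) k)) : gen P ≠ 0 := by
  rw [gen]; split_ifs with h
  · exact h.choose_spec.1.ne_zero
  · exact one_ne_zero

theorem gen_hom (P : Ideal (MvPolynomial (Fin 2) k)) : ∃ m, (gen P).IsHomogeneous m := by
  rw [gen]; split_ifs with h
  · exact h.choose_spec.2.1
  · exact ⟨0, isHomogeneous_one _ _⟩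

theorem dvd_gen {π : MvPolynomial (Fin 2) k} (hπ : Prime π) {m : ℕ} (hm : π.IsHomogeneous m) :
    π ∣ gen (Ideal.span {π}) := by
  have h : ∃ w, Prime w ∧ (∃ m, w.IsHomogeneous m) ∧ Ideal.span {π} = Ideal.span {w} := ⟨π, hπ, ⟨m, hm⟩, rfl⟩
  rw [gen, dif_pos h]
  have h2 := h.choose_spec.2.2
  rw [Ideal.span_singleton_eq_span_singleton] at h2
  exact h2.dvd

/-- equation of an effective divisor on `Proj` -/
noncomputable def eqn (D : Ideal (MvPolynomial (Fin 2) k) →₀ ℕ) : MvPolynomial (Fin 2) k :=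
  ∏ P ∈ D.support, gen P ^ D P

theorem eqn_ne (D : Ideal (MvPolynomial (Fin 2) k) →₀ ℕ) : eqn D ≠ 0 :=
  Finset.prod_ne_zero_iff.2 fun P _ => pow_ne_zero _ (gen_ne P)

theorem eqn_hom (D : Ideal (MvPolynomial (Fin 2) k) →₀ ℕ) : ∃ m, (eqn D).IsHomogeneous m := by
  choose f hf using (gen_hom (k := k))
  exact ⟨_, IsHomogeneous.prod _ _ (fun P => f P * D P) fun P _ => (hf P).pow _⟩

theorem dvd_eqn (D : Ideal (MvPolynomial (Fin 2) k) →₀ ℕ) {π : MvPolynomial (Fin 2) k} (hπ : Prime π) {m : ℕ}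
    (hm : π.IsHomogeneous m) : π ^ D (Ideal.span {π}) ∣ eqn D := by
  by_cases h : Ideal.span {π} ∈ D.support
  · refine (pow_dvd_pow_of_dvd (dvd_gen hπ hm) _).trans ?_
    exact Finset.dvd_prod_of_mem _ h
  · rw [Finsupp.notMem_support_iff.1 h, pow_zero]; exact one_dvd _

section
variable (p : ℕ) [Fact p.Prime] [CharP k p]

theorem ceilQ_eq (hp : p ≠ 2) (e : ℕ) {π : MvPolynomial (Fin 2) k} (hπ : Prime π) :
    ⌈((p : ℚ) ^ e - 1) * halfThree k (Ideal.span {π})⌉₊ = (p ^ e - 1) / 2 * ordAt (Ideal.span {π}) J3 := by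
  obtain ⟨h1, h2⟩ := q_facts p hp e
  have h3 : (p : ℚ) ^ e - 1 = 2 * (((p ^ e - 1) / 2 : ℕ) : ℚ) := by
    have h3 : ((2 * ((p ^ e - 1) / 2) : ℕ) : ℚ) = ((p ^ e - 1 : ℕ) : ℚ) := by rw [h1]
    rw [Nat.cast_sub h2] at h3
    push_cast at h3 ⊢
    linarith
  rw [halfThree_eq hπ, h3]
  have h4 : 2 * (((p ^ e - 1) / 2 : ℕ) : ℚ) * ((ordAt (Ideal.span {π}) (J3 : MvPolynomial (Fin 2) k) : ℚ) / 2) =
      (((p ^ e - 1) / 2 * ordAt (Ideal.span {π}) (J3 : MvPolynomial (Fin 2) k) : ℕ) : ℚ) := by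
    push_cast; ring
  rw [h4, Nat.ceil_natCast]

/-- sheaf splittings from the trace map -/
theorem proj_split [PerfectRing k p] (e : ℕ) (D : Ideal (MvPolynomial (Fin 2) k) → ℕ)
    (G c0 t : MvPolynomial (Fin 2) k) {dG dc : ℕ} (hGh : G.IsHomogeneous dG) (hG0 : G ≠ 0)
    (hch : c0.IsHomogeneous dc)
    (hdeg : dG + dc = 2 * (p ^ e - 1))
    (hG : ∀ π, Prime π → (∃ m, π.IsHomogeneous m) → π ^ (D (Ideal.span {π})) ∣ G)
    (ht : trc p e (G * c0) = t) (ht0' : t ≠ 0) (hth : t.IsHomogeneous 0) :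
    ProjSplits (homogeneousSubmodule (Fin 2) k) (p ^ e) D := by
  have hq0 : 0 < p ^ e := pow_pos (Fact.out : p.Prime).pos e
  have ht0 : io t ≠ 0 := io_ne ht0'
  refine ⟨fun _ h => trK p e (io (G * c0) * h) / io t, fun U hU => ⟨?_, ?_, ?_, ?_, ?_⟩⟩
  · intro h hh x hx
    obtain ⟨⟨m, a0, b0, ha0, hb0, hb0', hab0⟩, hpole⟩ := hh
    obtain ⟨a, b, hb, hrel, hab, hb'⟩ := clear_poles
      {π | Prime π ∧ (∃ m, π.IsHomogeneous m) ∧ π ∈ x.asHomogeneousIdeal} (fun π hπ => hπ.1)
      (fun π => D (Ideal.span {π})) G (fun π hπ => hG π hπ.1 hπ.2.1) h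
      (fun π hπ => by
        obtain ⟨hp1, ⟨m, hm⟩, hmem⟩ := hπ
        exact hpole (pt x hp1 hm hmem) (pt_mem hp1 hm hmem hx) (height_span_prime hp1))
    -- `G * a0 * b = a * b0`
    have hrel2 : G * a0 * b = a * b0 := by
      apply io_inj
      rw [map_mul io, map_mul io, map_mul io]
      have h1 := hab
      rw [hab0] at h1
      change io G * (io a0 / io b0) = io a / io b at h1
      have := io_ne hb
      have := io_ne hb0'
      field_simp at h1
      linear_combination h1
    have hbdvd : b ∣ b0 := by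
      have h1 : b ∣ a * b0 := by rw [← hrel2]; exact dvd_mul_left _ _
      exact (hrel.symm.dvd_of_dvd_mul_left h1)
    have hbh : b.IsHomogeneous b.totalDegree := homog_of_dvd hb0 hb0' hbdvd
    have hbx : b ∉ x.asHomogeneousIdeal := by
      intro hmem
      obtain ⟨π, hπ, hd, hm⟩ := exists_prime_dvd_mem x.isPrime hb hmem
      exact hb' π ⟨hπ, ⟨_, homog_of_dvd hbh hb hd⟩, hm⟩ hd
    have hah : a.IsHomogeneous (dG + b.totalDegree) := by
      by_cases ha : a = 0
      · rw [ha]; exact isHomogeneous_zero _ _ _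
      · have hne : a * b0 ≠ 0 := mul_ne_zero ha hb0'
        have h1 : (G * a0 * b).IsHomogeneous (dG + m + b.totalDegree) := (hGh.mul ha0).mul hbh
        have h2 : a.IsHomogeneous a.totalDegree := homog_of_dvd h1 (by rw [hrel2]; exact hne) (by rw [hrel2]; exact dvd_mul_right _ _)
        have h3 : (a * b0).IsHomogeneous (a.totalDegree + m) := h2.mul hb0
        rw [hrel2] at h1
        have h4 := h1.inj_right h3 hne
        have h5 : a.totalDegree = dG + b.totalDegree := by omega
        rwa [h5] at h2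
    have h1 : io (G * c0) * h = io (a * c0) / io b := by
      rw [map_mul io, map_mul io]
      calc io G * io c0 * h = (io G * h) * io c0 := by ring
        _ = _ := by rw [hab]; ring
    have h2 : trK p e (io (G * c0) * h) / io t =
        io (trc p e (a * c0 * b ^ (p ^ e - 1))) / io (b * t) := by
      rw [h1, trK_div p e _ _ hb, map_mul io, div_div]
    refine ⟨b.totalDegree, trc p e (a * c0 * b ^ (p ^ e - 1)), b * t, ?_, ?_, ?_, h2⟩
    · have h3 : (a * c0 * b ^ (p ^ e - 1)).IsHomogeneous (2 * (p ^ e - 1) + p ^ e * b.totalDegree) := by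
        have h4 := (hah.mul hch).mul (hbh.pow (p ^ e - 1))
        have h5 : dG + b.totalDegree + dc + b.totalDegree * (p ^ e - 1) = 2 * (p ^ e - 1) + p ^ e * b.totalDegree := by
          obtain ⟨r, hr⟩ : ∃ r, p ^ e = r + 1 := ⟨p ^ e - 1, by omega⟩
          rw [hr] at hdeg ⊢
          simp only [Nat.add_sub_cancel] at hdeg ⊢
          nlinarith
        rwa [h5] at h4
      exact trc_hom p e h3
    · have h3 := hbh.mul hth
      rw [add_zero] at h3
      exact h3
    · intro hmem
      rcases x.isPrime.mem_or_mem hmem with h3 | h3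
      · exact hbx h3
      · obtain ⟨c, hc⟩ : ∃ c, t = C c := by
          have := (totalDegree_eq_zero_iff_eq_C (p := t)).1 (by
            have := hth.totalDegree_le; omega)
          exact ⟨_, this⟩
        have hc0 : c ≠ 0 := by rintro rfl; rw [hc, map_zero] at ht0'; exact ht0' rfl
        exact x.isPrime.ne_top (Ideal.eq_top_of_isUnit_mem _ h3 (by rw [hc]; exact (isUnit_iff_ne_zero.2 hc0).map C))
  · intro h _ h' _
    have : trK p e (io (G * c0) * (h + h')) / io t = trK p e (io (G * c0) * h) / io t +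
        trK p e (io (G * c0) * h') / io t := by
      rw [mul_add, trK_add, add_div]
    exact this
  · intro r _ h _
    have h1 : io (G * c0) * (r ^ (p ^ e) * h) = r ^ (p ^ e) * (io (G * c0) * h) := by ring
    have h2 : trK p e (io (G * c0) * (r ^ (p ^ e) * h)) / io t = r * (trK p e (io (G * c0) * h) / io t) := by
      rw [h1, trK_pow_mul, mul_div_assoc]
    exact h2
  · intro _ _ _ _ _
    rfl
  · have h1 : trK p e (io (G * c0) * 1) / io t = 1 := by
      rw [mul_one, trK_io, ht]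
      exact div_self ht0
    exact h1

theorem gfr [PerfectRing k p] (hp : p ≠ 2) :
    IsGloballyFRegular (homogeneousSubmodule (Fin 2) k) p (halfThree k) := by
  intro D
  obtain ⟨dδ, hδ⟩ := eqn_hom D
  have hp1 : 1 < p := (Fact.out : p.Prime).one_lt
  set e := 4 * dδ + 1 with he
  have hq1 : e < p ^ e := Nat.lt_pow_self hp1
  obtain ⟨hq, hq0⟩ := q_facts p hp e
  refine ⟨e, by omega, ?_⟩
  set m := (p ^ e - 1) / 2 with hm
  have hGh : (eqn D * J3 ^ m).IsHomogeneous (dδ + 3 * m) := hδ.mul ((J3_hom).pow m)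
  obtain ⟨i, j, hi, hj, hc⟩ : ∃ i j, i < p ^ e ∧ j < p ^ e ∧ coeff (ex i j) (eqn D * J3 ^ m) ≠ 0 := by
    by_contra hcon
    push Not at hcon
    obtain ⟨a, b, hab⟩ := mem_frob (q := p ^ e) (fun i j hi hj => hcon i j hi hj)
    have h1 := P1 p e hp _ a b hab
    obtain ⟨d, hd⟩ := MvPolynomial.ne_zero_iff.1 (hat_ne_zero p hp (eqn_ne D))
    have h2 : d.degree = 4 * dδ := by
      by_contra hne
      exact hd ((hat_hom hδ).coeff_eq_zero hne)
    rw [ex_eta d, degree_ex] at h2
    rw [ex_eta d] at hd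
    exact hd (h1 _ _ (by omega) (by omega))
  have hij : i + j = dδ + 3 * m := by
    by_contra hne
    exact hc (hGh.coeff_eq_zero (by rw [degree_ex]; exact hne))
  have hGc : (eqn D * J3 ^ m * (X 0 ^ (p ^ e - 1 - i) * X 1 ^ (p ^ e - 1 - j))).IsHomogeneous
      (2 * (p ^ e - 1) + p ^ e * 0) := by
    have h1 := hGh.mul ((isHomogeneous_X_pow (R := k) (0 : Fin 2) (p ^ e - 1 - i)).mul (isHomogeneous_X_pow (R := k) (1 : Fin 2) (p ^ e - 1 - j)))
    have h2 : dδ + 3 * m + (p ^ e - 1 - i + (p ^ e - 1 - j)) = 2 * (p ^ e - 1) + p ^ e * 0 := by omega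
    rwa [h2] at h1
  have hthom := trc_hom p e hGc
  refine proj_split p e _ (eqn D * J3 ^ m) (X 0 ^ (p ^ e - 1 - i) * X 1 ^ (p ^ e - 1 - j)) _ hGh
    (mul_ne_zero (eqn_ne D) (pow_ne_zero _ J3_ne))
    ((isHomogeneous_X_pow (R := k) (0 : Fin 2) (p ^ e - 1 - i)).mul (isHomogeneous_X_pow (R := k) (1 : Fin 2) (p ^ e - 1 - j)))
    (by omega) ?_ rfl ?_ hthom
  · intro π hπ hπh
    rw [ceilQ_eq p hp e hπ, add_comm, pow_add]
    apply mul_dvd_mul
    · obtain ⟨n, hn⟩ := hπh
      exact dvd_eqn D hπ hn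
    · rw [← le_ordAt_iff hπ (pow_ne_zero _ J3_ne), ordAt_pow hπ J3_ne]
  · intro h0
    apply trc_coeff_zero p e _ i j hi hj hc
    rw [h0]; simp

end

end Pool.Agent.H574R3.Alpha
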