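import Mathlib
import Pool.Agent.H574R3.Alpha.GFR

set_option autoImplicit false

open scoped ENNReal NNReal
open TopologicalSpace

namespace Pool.Agent.H574R3.Alpha

open MvPolynomial

attribute [local instance] MvPolynomial.gradedAlgebra

universe u

variable {k : Type u} [Field k]

theorem not_dvd_both {π : MvPolynomial (Fin 2) k} (hπ : Prime π) (h0 : π ∣ X 0) (h1 : π ∣ X 1) : False := by
  have a0 := hπ.associated_of_dvd prime_X0 h0
  have a1 := hπ.associated_of_dvd prime_X1 h1
  have h : (X 0 : MvPolynomial (Fin 2) k) ∣ X 1 := (a0.symm.trans a1).dvd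
  rw [X_dvd_X] at h
  exact absurd h (by decide)

theorem irr_le {x : HomogeneousIdeal (homogeneousSubmodule (Fin 2) k)} (h0 : X 0 ∈ x) (h1 : X 1 ∈ x) :
    HomogeneousIdeal.irrelevant (homogeneousSubmodule (Fin 2) k) ≤ x := by
  intro F hF
  have hF' : F ∈ mm k := hF
  rw [mem_mm] at hF'
  have h2 : F ∈ Ideal.span ({X 0, X 1} : Set (MvPolynomial (Fin 2) k)) := by
    obtain ⟨a, b, hab⟩ := mem_frob (q := 1) (G := F) (by
      intro i j hi hj
      have hi0 : i = 0 := by omega
      have hj0 : j = 0 := by omega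
      subst hi0; subst hj0
      have h0 : (0 : Fin 2 →₀ ℕ) = ex 0 0 := by simp [ex]
      rw [← h0]; exact hF')
    rw [Ideal.mem_span_pair]
    exact ⟨a, b, by rw [hab, pow_one, pow_one]⟩
  have h3 : Ideal.span ({X 0, X 1} : Set (MvPolynomial (Fin 2) k)) ≤ x.toIdeal := by
    rw [Ideal.span_le]
    rintro y (rfl | rfl)
    · exact h0
    · exact h1
  exact h3 h2

theorem not_irr_le {π : MvPolynomial (Fin 2) k} (hπ : Prime π) :
    ¬ (HomogeneousIdeal.irrelevant (homogeneousSubmodule (Fin 2) k)).toIdeal ≤ Ideal.span {π} := by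
  intro h
  have h0 : (X 0 : MvPolynomial (Fin 2) k) ∈ mm k := by rw [mem_mm]; simp
  have h1 : (X 1 : MvPolynomial (Fin 2) k) ∈ mm k := by rw [mem_mm]; simp
  exact not_dvd_both hπ (Ideal.mem_span_singleton.1 (h h0)) (Ideal.mem_span_singleton.1 (h h1))

theorem span_homog {π : MvPolynomial (Fin 2) k} {m : ℕ} (hm : π.IsHomogeneous m) :
    (Ideal.span {π}).IsHomogeneous (homogeneousSubmodule (Fin 2) k) :=
  Ideal.homogeneous_span _ _ (by
    rintro y hy
    rw [Set.mem_singleton_iff] at hy
    subst hy
    exact ⟨m, hm⟩)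

/-- the point of `Proj` given by a homogeneous prime element -/
noncomputable def pt' {π : MvPolynomial (Fin 2) k} {m : ℕ} (hπ : Prime π) (hm : π.IsHomogeneous m) :
    ProjectiveSpectrum (homogeneousSubmodule (Fin 2) k) where
  asHomogeneousIdeal := ⟨Ideal.span {π}, span_homog hm⟩
  isPrime := (Ideal.span_singleton_prime hπ.ne_zero).2 hπ
  not_irrelevant_le := not_irr_le hπ

theorem isSectionRing (k : Type u) [Field k] : IsSectionRing (homogeneousSubmodule (Fin 2) k) where
  normal := inferInstance
  finiteType := inferInstance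
  finite_zero := Module.Finite.iff_fg.2 (homogeneousSubmodule_fg (Fin 2) k 0)
  nonempty := ⟨pt' prime_X0 (isHomogeneous_X k 0)⟩
  invertible := by
    intro x
    refine ⟨0, ⟨1, isHomogeneous_one _ _, fun h => x.isPrime.ne_top ((Ideal.eq_top_iff_one _).2 h)⟩, ?_⟩
    by_contra hcon
    push Not at hcon
    exact x.not_irrelevant_le (irr_le (hcon (X 0) (isHomogeneous_X k 0)) (hcon (X 1) (isHomogeneous_X k 1)))
  sections := by
    intro m h hh
    obtain ⟨a, b, hb, hrel, hab, -⟩ := clear_poles (∅ : Set (MvPolynomial (Fin 2) k)) (fun π hπ => hπ.elim)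
      (fun _ => 0) 1 (fun π hπ => hπ.elim) h (fun π hπ => hπ.elim)
    rw [map_one io, one_mul] at hab
    have hrep : ∀ a1 b1 : MvPolynomial (Fin 2) k, b1 ≠ 0 →
        h = io a1 / io b1 → a * b1 = a1 * b := by
      intro a1 b1 hb1 he
      apply io_inj
      rw [map_mul io, map_mul io]
      rw [hab] at he
      have := io_ne hb
      have := io_ne hb1
      field_simp at he
      linear_combination he
    obtain ⟨i0, a0, b0, ha0, hb0, hbx0, he0⟩ := hh (pt' prime_X0 (isHomogeneous_X k 0))
    have hb00 : b0 ≠ 0 := by rintro rfl; exact hbx0 (Ideal.zero_mem _)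
    have hr0 := hrep a0 b0 hb00 he0
    have hbd : b ∣ b0 := by
      have h1 : b ∣ a * b0 := by rw [hr0]; exact dvd_mul_left _ _
      exact hrel.symm.dvd_of_dvd_mul_left h1
    have hbu : IsUnit b := by
      by_contra hnu
      obtain ⟨π, hπ, hd⟩ := WfDvdMonoid.exists_irreducible_factor hnu hb
      have hπp : Prime π := hπ.prime
      have hπh := homog_of_dvd hb0 hb00 (hd.trans hbd)
      obtain ⟨i1, a1, b1, ha1, hb1, hbx1, he1⟩ := hh (pt' hπp hπh)
      have hb10 : b1 ≠ 0 := by rintro rfl; exact hbx1 (Ideal.zero_mem _)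
      have hr1 := hrep a1 b1 hb10 he1
      have h2 : π ∣ a * b1 := by rw [hr1]; exact Dvd.dvd.mul_left hd _
      rcases hπp.dvd_or_dvd h2 with h3 | h3
      · exact hπp.not_isUnit (hrel h3 hd)
      · exact hbx1 (Ideal.mem_span_singleton.2 h3)
    obtain ⟨c, hc⟩ := hbu.exists_right_inv
    have hio : h = io (a * c) := by
      rw [hab, map_mul]
      have h1 : io b * io c = 1 := by rw [← map_mul, hc, map_one]
      have := io_ne hb
      field_simp
      linear_combination (- io a) * h1
    refine ⟨a * c, ?_, hio⟩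
    have h2 : a * c * b0 = a0 := by
      have : b * (a * c * b0) = b * a0 := by
        calc b * (a * c * b0) = (b * c) * (a * b0) := by ring
          _ = _ := by rw [hc, one_mul, hr0]; ring
      exact mul_left_cancel₀ hb this
    by_cases hz : a * c = 0
    · rw [hz]; exact Submodule.zero_mem _
    · have ha00 : a0 ≠ 0 := by rw [← h2]; exact mul_ne_zero hz hb00
      have h3 := homog_of_dvd ha0 ha00 (Dvd.intro _ h2)
      have h4 := h3.mul hb0
      rw [h2] at h4
      have h5 := h4.inj_right ha0 ha00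
      have h6 : (a * c).totalDegree = m := by omega
      rw [h6] at h3
      exact h3

theorem isEffective (k : Type u) [Field k] : IsEffectiveDivisor (homogeneousSubmodule (Fin 2) k) (halfThree k) := by
  intro P
  rw [halfThree, Finsupp.add_apply, Finsupp.add_apply, Finsupp.single_apply, Finsupp.single_apply,
    Finsupp.single_apply]
  have key : ∀ {π : MvPolynomial (Fin 2) k}, Prime π → π.IsHomogeneous 1 → Ideal.span {π} = P →
      P.IsPrime ∧ P.IsHomogeneous (homogeneousSubmodule (Fin 2) k) ∧ P.height = 1 ∧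
        ¬ (HomogeneousIdeal.irrelevant (homogeneousSubmodule (Fin 2) k)).toIdeal ≤ P := by
    rintro π hπ hπh rfl
    exact ⟨(Ideal.span_singleton_prime hπ.ne_zero).2 hπ, span_homog hπh, height_span_prime hπ, not_irr_le hπ⟩
  refine ⟨by split_ifs <;> norm_num, ?_⟩
  intro h
  by_cases h0 : Ideal.span {X 0} = P
  · exact key prime_X0 (isHomogeneous_X k 0) h0
  · by_cases h1 : Ideal.span {X 1} = P
    · exact key prime_X1 (isHomogeneous_X k 1) h1
    · by_cases h2 : Ideal.span {X 0 + X 1} = P
      · exact key prime_X01 ((isHomogeneous_X k 0).add (isHomogeneous_X k 1)) h2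
      · rw [if_neg h0, if_neg h1, if_neg h2] at h
        exact absurd (by norm_num) h

end Pool.Agent.H574R3.Alpha
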